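import Pool.Agent.P.MP_909498_an.Classify

/-!
Maps from `ℤ` to `Option ℤ` that are bounded for the canonical Parseval frame of a shift invariant
subspace: prediction, separation, determinism and limits.
-/

open scoped InnerProductSpace ComplexConjugate
open Filter Topology

namespace Pool.Agent.P.MP_909498_an

/-- `S` is the group of shifts and `N` is invariant. -/
structure Sh (N : Submodule ℂ (L2 ℤ)) (S : ℤ → L2 ℤ →ₗᵢ[ℂ] L2 ℤ) : Prop where
  isW : ∀ t, IsW (S t) (· + t) fun _ => 1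
  app : ∀ t x i, S t x i = x (i - t)
  comp : ∀ a b x, S a (S b x) = S (a + b) x
  pres : ∀ t, ∀ x ∈ N, S t x ∈ N

variable (N : Submodule ℂ (L2 ℤ)) [N.HasOrthogonalProjection]

/-- The projection of a basis vector onto the orthogonal complement. -/
noncomputable def pv (k : ℤ) : L2 ℤ := eb k - N.starProjection (eb k)

/-- The same, with the value `0` at `none`. -/
noncomputable def po : Option ℤ → L2 ℤ
  | none => 0
  | some j => pv N j

/-- The map `pv k ↦ po (σ k)` is bounded by `C`. -/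
def Bd (C : ℝ) (σ : ℤ → Option ℤ) : Prop :=
  ∀ (s : Finset ℤ) (c : ℤ → ℂ), ‖∑ k ∈ s, c k • po N (σ k)‖ ≤ C * ‖∑ k ∈ s, c k • pv N k‖

theorem pv_mem (k : ℤ) : pv N k ∈ Nᗮ := N.sub_starProjection_mem_orthogonal _

theorem inner_pv (y : L2 ℤ) (k : ℤ) : ⟪y, pv N k⟫_ℂ = conj ((y - N.starProjection y) k) := by
  rw [pv, inner_sub_right, ← N.inner_starProjection_left_eq_right, ← inner_sub_left,
    ← inner_conj_symm, inner_eb]

theorem inner_pv' {y : L2 ℤ} (hy : y ∈ Nᗮ) (k : ℤ) : ⟪y, pv N k⟫_ℂ = conj (y k) := by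
  rw [inner_pv, (Submodule.starProjection_apply_eq_zero_iff N).2 hy, sub_zero]

theorem finite_big (y : L2 ℤ) {η : ℝ} (hη : 0 < η) : {j | η ≤ ‖⟪y, pv N j⟫_ℂ‖}.Finite := by
  have h := (hasSum_sq (y - N.starProjection y)).summable.tendsto_cofinite_zero.eventually
    (gt_mem_nhds (show (0 : ℝ) < η ^ 2 by positivity))
  refine (eventually_cofinite.1 h).subset fun n hn => ?_
  have hn' : η ≤ ‖(y - N.starProjection y) n‖ := by
    rw [← Complex.norm_conj, ← inner_pv]
    exact hn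
  exact not_lt.2 (pow_le_pow_left₀ hη.le hn' 2)

variable {N} {S : ℤ → L2 ℤ →ₗᵢ[ℂ] L2 ℤ}

omit [N.HasOrthogonalProjection] in
theorem Sh.zero (h : Sh N S) (x : L2 ℤ) : S 0 x = x :=
  lp.ext (funext fun i => by rw [h.app, sub_zero])

omit [N.HasOrthogonalProjection] in
theorem Sh.inner (h : Sh N S) (t : ℤ) (x y : L2 ℤ) : ⟪S t x, y⟫_ℂ = ⟪x, S (-t) y⟫_ℂ := by
  rw [← (S t).inner_map_map x, h.comp, add_neg_cancel, h.zero]

omit [N.HasOrthogonalProjection] in
theorem Sh.orth (h : Sh N S) (t : ℤ) {y : L2 ℤ} (hy : y ∈ Nᗮ) : S t y ∈ Nᗮ :=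
  (Submodule.mem_orthogonal _ _).2 fun x hx => by
    rw [← neg_neg t, ← h.inner]
    exact (Submodule.mem_orthogonal _ _).1 hy _ (h.pres _ x hx)

theorem Sh.dd (h : Sh N S) (j k : ℤ) : dd N j = dd N k :=
  le_antisymm (by simpa using (h.isW (j - k)).dd_le (h.pres _) k)
    (by simpa using (h.isW (k - j)).dd_le (h.pres _) j)

theorem Sh.pv (h : Sh N S) (t k : ℤ) : S t (pv N k) = pv N (k + t) := by
  rw [MP_909498_an.pv, map_sub, ← (h.isW t).comm (h.pres t) fun _ => h.dd _ _, (h.isW t).2,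
    one_smul, MP_909498_an.pv]

theorem Sh.po (h : Sh N S) (t : ℤ) (o : Option ℤ) : S t (po N o) = po N (o.map (· + t)) := by
  cases o with
  | none => exact map_zero _
  | some j => exact h.pv t j

theorem Bd.shift (h : Sh N S) {C : ℝ} {σ : ℤ → Option ℤ} (hb : Bd N C σ) (a b : ℤ) :
    Bd N C fun k => (σ (k + a)).map (· + b) := by
  intro s c
  have h1 := hb (s.map (Equiv.addRight a).toEmbedding) fun k => c (k - a)
  simp only [Finset.sum_map, Equiv.coe_toEmbedding, Equiv.coe_addRight, add_sub_cancel_right] at h1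
  simp only [← h.po, ← map_smul, ← map_sum, LinearIsometry.norm_map]
  simpa only [← h.pv, ← map_smul, ← map_sum, LinearIsometry.norm_map] using h1

theorem bd_none {C : ℝ} (hC : 0 ≤ C) : Bd N C fun _ => none := fun s c => by
  simp only [po, smul_zero, Finset.sum_const_zero, norm_zero]
  positivity

/-- Prediction from one side. -/
theorem Sh.predict (h : Sh N S) (hN : ∃ x ∈ N, x ≠ 0) {e : ℤ} (he : e ≠ 0) {η : ℝ} (hη : 0 < η) :
    ∃ (s : Finset ℤ) (a : ℤ → ℂ), (∀ i ∈ s, 0 < e * i) ∧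
      ‖MP_909498_an.pv N 0 - ∑ i ∈ s, a i • MP_909498_an.pv N i‖ < η := by
  set L := (Submodule.span ℂ (MP_909498_an.pv N '' {i | 0 < e * i})).topologicalClosure with hL
  have : CompleteSpace L := (Submodule.isClosed_topologicalClosure _).completeSpace_coe
  have hLN : L ≤ Nᗮ := Submodule.topologicalClosure_minimal _
    (Submodule.span_le.2 (by rintro _ ⟨i, -, rfl⟩; exact pv_mem N i)) N.isClosed_orthogonal
  have hin : ∀ i, 0 < e * i → MP_909498_an.pv N i ∈ L := fun i hi =>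
    Submodule.le_topologicalClosure _ (Submodule.subset_span ⟨i, hi, rfl⟩)
  have hSL : ∀ t, 0 < e * t → L ≤ L.comap (S t).toLinearMap := fun t ht =>
    Submodule.topologicalClosure_minimal _ (Submodule.span_le.2 (by
      rintro _ ⟨i, hi, rfl⟩
      have hi' : 0 < e * i := hi
      change S t _ ∈ L
      rw [h.pv]
      exact hin _ (by linarith [mul_add e i t])))
      ((Submodule.isClosed_topologicalClosure _).preimage (S t).continuous)
  have h0 : MP_909498_an.pv N 0 ∈ L := by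
    by_contra hc
    set w := MP_909498_an.pv N 0 - L.starProjection (MP_909498_an.pv N 0) with hw
    have hw0 : w ≠ 0 := fun e =>
      hc (Submodule.starProjection_eq_self_iff.1 (sub_eq_zero.1 e).symm)
    set v := ((‖w‖⁻¹ : ℝ) : ℂ) • w with hv
    have hv1 : ‖v‖ = 1 := by
      rw [hv, norm_smul, Complex.norm_real, norm_inv, norm_norm,
        inv_mul_cancel₀ (norm_ne_zero_iff.2 hw0)]
    have hvo : v ∈ Lᗮ := Lᗮ.smul_mem _ (L.sub_starProjection_mem_orthogonal _)
    have hvN : v ∈ Nᗮ :=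
      Nᗮ.smul_mem _ (Nᗮ.sub_mem (pv_mem N 0) (hLN (L.starProjection_apply_mem _)))
    have hv3 : ∀ t, 0 < e * t → ⟪S t v, v⟫_ℂ = 0 := fun t ht => by
      refine (Submodule.mem_orthogonal _ _).1 hvo _ ?_
      rw [hv, map_smul, hw, map_sub, h.pv, zero_add]
      exact L.smul_mem _ (L.sub_mem (hin t ht) (hSL t ht (L.starProjection_apply_mem _)))
    have ho : Orthonormal ℂ fun i : ℤ => S (-i) v := by
      refine ⟨fun i => by rw [(S _).norm_map, hv1], fun i j hij => ?_⟩
      change ⟪S (-i) v, S (-j) v⟫_ℂ = 0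
      rcases lt_or_gt_of_ne (mul_ne_zero he (sub_ne_zero.2 hij)) with h1 | h1
      · rw [← neg_neg (-j), ← h.inner, h.comp]
        exact hv3 _ (by linarith [mul_sub e i j, mul_add e (- -j) (-i)])
      · rw [h.inner, h.comp]
        exact inner_eq_zero_symm.1 (hv3 _ (by linarith [mul_sub e i j, mul_add e (- -i) (-j)]))
    have hB : (1 : ℝ) ≤ ‖MP_909498_an.pv N 0‖ ^ 2 := by
      have hs := hasSum_sq v
      rw [hv1, one_pow] at hs
      refine le_of_tendsto' hs fun s => ?_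
      have h1 := ho.sum_inner_products_le (s := s) (MP_909498_an.pv N 0)
      simpa only [inner_pv' N (h.orth _ hvN), h.app, zero_sub, neg_neg, Complex.norm_conj] using h1
    obtain ⟨x, hx, hx0⟩ := hN
    have hQ : ∀ k, N.starProjection (eb k) = 0 := fun k => by
      have hp := pyth N (eb k) N.zero_mem
      rw [sub_zero, sub_zero, orthonormal_eb.1, one_pow] at hp
      have h2 : ‖eb k - N.starProjection (eb k)‖ = ‖MP_909498_an.pv N 0‖ := h.dd k 0
      rw [h2] at hp
      exact norm_eq_zero.1 (pow_eq_zero_iff two_ne_zero |>.1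
        (le_antisymm (by linarith) (sq_nonneg _)))
    have e := ext_eb (T := N.starProjection) (T' := 0) hQ x
    rw [Submodule.starProjection_eq_self_iff.2 hx] at e
    exact hx0 e
  obtain ⟨y, hy, hd⟩ := Metric.mem_closure_iff.1 h0 η hη
  obtain ⟨l, hl, rfl⟩ := (Finsupp.mem_span_image_iff_linearCombination ℂ).1 hy
  exact ⟨l.support, l, fun i hi => hl hi, by rwa [dist_eq_norm] at hd⟩

theorem Sh.sep (h : Sh N S) (h0 : eb 0 ∉ N) :
    ∃ δ > 0, ∀ o o', ‖MP_909498_an.po N o - MP_909498_an.po N o'‖ < δ → o = o' := by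
  set p := MP_909498_an.pv N with hp
  have hc : 0 < ‖p 0‖ := norm_pos_iff.2 fun e =>
    h0 (Submodule.starProjection_eq_self_iff.1 (sub_eq_zero.1 e).symm)
  have hS : ∀ t k, S t (p k) = p (k + t) := h.pv
  have hF := finite_big N (p 0) (η := ‖p 0‖ ^ 2 / 2) (by positivity)
  have hself : ‖⟪p 0, p 0⟫_ℂ‖ = ‖p 0‖ ^ 2 := by
    rw [inner_self_eq_norm_sq_to_K]
    simp
  have hne : ∀ n, n ≠ 0 → 0 < ‖p 0 - p n‖ := fun n hn => norm_pos_iff.2 fun e => by
    have h1 : ∀ k : ℕ, p (n * k) = p 0 := fun k => by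
      induction k with
      | zero => simp
      | succ k ih =>
        rw [Nat.cast_succ, mul_add_one, ← hS, ih, hS, zero_add]
        exact (sub_eq_zero.1 e).symm
    refine Set.infinite_of_injective_forall_mem (f := fun k : ℕ => n * k)
      (fun a b hab => by simpa [hn] using hab) (fun k => ?_) hF
    change _ ≤ ‖⟪p 0, p (n * k)⟫_ℂ‖
    rw [h1, hself]
    nlinarith
  obtain ⟨δ, hδ, hδ'⟩ : ∃ δ > 0, ∀ n ∈ hF.toFinset.erase 0, δ ≤ ‖p 0 - p n‖ := by
    rcases (hF.toFinset.erase 0).eq_empty_or_nonempty with e | e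
    · exact ⟨1, one_pos, by simp [e]⟩
    · obtain ⟨m, hm, hm'⟩ := Finset.exists_min_image _ (fun n => ‖p 0 - p n‖) e
      exact ⟨_, hne m (Finset.ne_of_mem_erase hm), hm'⟩
  have hall : ∀ n, n ≠ 0 → min δ (‖p 0‖ / 2) ≤ ‖p 0 - p n‖ := fun n hn => by
    by_cases hm : n ∈ hF.toFinset
    · exact (min_le_left _ _).trans (hδ' n (Finset.mem_erase.2 ⟨hn, hm⟩))
    · refine (min_le_right _ _).trans ?_
      have h1 : ‖⟪p 0, p n⟫_ℂ‖ < ‖p 0‖ ^ 2 / 2 := by simpa using hm
      have h2 := norm_inner_le_norm (𝕜 := ℂ) (p 0) (p 0 - p n)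
      rw [inner_sub_right] at h2
      have h3 := norm_sub_norm_le ⟪p 0, p 0⟫_ℂ ⟪p 0, p n⟫_ℂ
      rw [hself] at h3
      nlinarith
  have hn : ∀ j, ‖p j‖ = ‖p 0‖ := fun j => h.dd j 0
  refine ⟨min δ (‖p 0‖ / 2), by positivity, fun o o' hlt => ?_⟩
  have hm := min_le_right δ (‖p 0‖ / 2)
  rcases o with _ | i <;> rcases o' with _ | j
  · rfl
  · change ‖0 - p j‖ < _ at hlt
    rw [zero_sub, norm_neg, hn] at hlt
    linarith
  · change ‖p i - 0‖ < _ at hlt
    rw [sub_zero, hn] at hlt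
    linarith
  · by_contra hij
    have h1 := hall (j - i) fun e => hij (by rw [sub_eq_zero.1 e])
    rw [← (S i).norm_map (p 0 - _), map_sub, hS, hS, zero_add, sub_add_cancel] at h1
    exact absurd hlt (not_lt.2 h1)

/-- Two bounded maps that agree on a long window agree everywhere. -/
theorem Sh.determ (h : Sh N S) (hN : ∃ x ∈ N, x ≠ 0) (h0 : eb 0 ∉ N) {C : ℝ} (hC : 0 ≤ C) :
    ∃ K : ℕ, ∀ σ σ', Bd N C σ → Bd N C σ' → ∀ x : ℤ,
      (∀ i ∈ Finset.Ico x (x + K), σ i = σ' i) → σ = σ' := by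
  obtain ⟨δ, hδ, hsep⟩ := h.sep h0
  have step : ∀ e : ℤ, e ≠ 0 → ∃ K : ℕ, ∀ σ σ', Bd N C σ → Bd N C σ' → ∀ x : ℤ,
      (∀ i, 0 < e * i → |i| ≤ K → σ (i + x) = σ' (i + x)) → σ x = σ' x := fun e he => by
    obtain ⟨s, a, hs, ha⟩ := h.predict hN he (η := δ / (2 * (C + 1))) (by positivity)
    refine ⟨s.sup Int.natAbs, fun σ σ' hb hb' x hx => hsep _ _ ?_⟩
    have h0s : 0 ∉ s := fun e => by simpa using hs 0 e
    have key : ∀ σ, Bd N C σ →
        ‖MP_909498_an.po N (σ x) - ∑ i ∈ s, a i • MP_909498_an.po N (σ (i + x))‖ < δ / 2 := by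
      intro σ hb
      have h1 := hb.shift h x 0 (insert 0 s) fun i => if i = 0 then 1 else -a i
      have e1 : ∀ g : ℤ → L2 ℤ, ∑ i ∈ insert 0 s, (if i = 0 then 1 else -a i) • g i =
          g 0 - ∑ i ∈ s, a i • g i := fun g => by
        rw [Finset.sum_insert h0s, if_pos rfl, one_smul, sub_eq_add_neg, ← Finset.sum_neg_distrib]
        exact congrArg _ (Finset.sum_congr rfl fun i hi => by
          rw [if_neg (ne_of_mem_of_not_mem hi h0s), neg_smul])
      rw [e1, e1] at h1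
      simp only [add_zero, Option.map_id', zero_add] at h1
      have h2 : C * (δ / (2 * (C + 1))) < δ / 2 := by
        rw [← mul_div_assoc, div_lt_div_iff₀ (by positivity) two_pos]
        nlinarith
      exact (h1.trans (mul_le_mul_of_nonneg_left ha.le hC)).trans_lt h2
    have e2 : ∑ i ∈ s, a i • MP_909498_an.po N (σ (i + x)) =
        ∑ i ∈ s, a i • MP_909498_an.po N (σ' (i + x)) := Finset.sum_congr rfl fun i hi => by
      rw [hx i (hs i hi) (by
        rw [Int.abs_eq_natAbs]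
        exact_mod_cast Finset.le_sup (f := Int.natAbs) hi)]
    have h1 := key σ hb
    have h2 := key σ' hb'
    rw [← e2, norm_sub_rev] at h2
    linarith [norm_sub_le_norm_sub_add_norm_sub (MP_909498_an.po N (σ x))
      (∑ i ∈ s, a i • MP_909498_an.po N (σ (i + x))) (MP_909498_an.po N (σ' x))]
  obtain ⟨K1, h1⟩ := step 1 one_ne_zero
  obtain ⟨K2, h2⟩ := step (-1) (by norm_num)
  refine ⟨K1 + K2, fun σ σ' hb hb' x hx => ?_⟩
  have hall : ∀ n : ℕ, ∀ i, x - n ≤ i → i < x + K1 + K2 + n → σ i = σ' i := by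
    intro n
    induction n with
    | zero => exact fun i hi hi' => hx i (Finset.mem_Ico.2 ⟨by omega, by omega⟩)
    | succ n ih =>
      intro i hi hi'
      by_cases e1 : i < x - n
      · exact h1 σ σ' hb hb' i fun j hj hj' => ih _ (by omega) (by
          rw [abs_le] at hj'
          omega)
      · by_cases e2 : i < x + K1 + K2 + n
        · exact ih i (by omega) e2
        · exact h2 σ σ' hb hb' i fun j hj hj' => ih _ (by
            rw [abs_le] at hj'
            omega) (by omega)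
  exact funext fun i => hall ((i - x).natAbs + 1) i (by omega) (by omega)

/-- Limits along an ultrafilter. -/
theorem exists_ulim (u : Ultrafilter ℕ) {C : ℝ} {σ : ℕ → ℤ → Option ℤ} (hb : ∀ n, Bd N C (σ n)) :
    ∃ ρ, Bd N C ρ ∧ ∀ k j, ρ k = some j ↔ ∀ᶠ n in u, σ n k = some j := by
  classical
  have hex : ∀ k, ∃ o : Option ℤ, ∀ j, o = some j ↔ ∀ᶠ n in u, σ n k = some j := fun k => by
    by_cases hk : ∃ j, ∀ᶠ n in u, σ n k = some j
    · obtain ⟨j, hj⟩ := hk
      refine ⟨some j, fun j' => ⟨fun e => Option.some.inj e ▸ hj, fun e => ?_⟩⟩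
      obtain ⟨n, h1, h2⟩ := (hj.and e).exists
      exact h1.symm.trans h2
    · exact ⟨none, fun j => ⟨fun e => by simp at e, fun e => (hk ⟨j, e⟩).elim⟩⟩
  choose ρ hρ using hex
  refine ⟨ρ, fun s c => ?_, hρ⟩
  have hw : ∀ y k, Tendsto (fun n => ⟪y, po N (σ n k)⟫_ℂ) u (𝓝 ⟪y, po N (ρ k)⟫_ℂ) := by
    intro y k
    cases e : ρ k with
    | some j => exact tendsto_const_nhds.congr' (((hρ k j).1 e).mono fun n hn => by
        simp only [hn])
    | none =>
      refine Metric.tendsto_nhds.2 fun η hη => ?_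
      have h1 : ∀ᶠ n in u, ∀ j ∈ {j | η ≤ ‖⟪y, pv N j⟫_ℂ‖}, σ n k ≠ some j :=
        (eventually_all_finite (finite_big N y hη)).2 fun j _ =>
          Ultrafilter.eventually_not.2 fun e' => by simpa [e] using (hρ k j).2 e'
      refine h1.mono fun n hn => ?_
      rw [dist_eq_norm, po, inner_zero_right, sub_zero]
      cases e' : σ n k with
      | none => simpa [po] using hη
      | some j => exact not_le.1 fun hj => hn j hj e'
  set x := ∑ k ∈ s, c k • po N (ρ k) with hx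
  have h1 : Tendsto (fun n => ⟪x, ∑ k ∈ s, c k • po N (σ n k)⟫_ℂ) u (𝓝 ⟪x, x⟫_ℂ) := by
    nth_rw 3 [hx]
    simp only [inner_sum, inner_smul_right]
    exact tendsto_finsetSum _ fun k _ => (hw x k).const_mul _
  have h2 : ‖⟪x, x⟫_ℂ‖ ≤ ‖x‖ * (C * ‖∑ k ∈ s, c k • pv N k‖) :=
    le_of_tendsto' h1.norm fun n => (norm_inner_le_norm _ _).trans
      (mul_le_mul_of_nonneg_left (hb n s c) (norm_nonneg _))
  have h3 : ‖⟪x, x⟫_ℂ‖ = ‖x‖ * ‖x‖ := by
    rw [inner_self_eq_norm_sq_to_K]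
    simp [sq]
  rcases (norm_nonneg x).eq_or_lt with h0 | h0
  · exact h0 ▸ (norm_nonneg _).trans (hb 0 s c)
  · exact le_of_mul_le_mul_left (h3 ▸ h2) h0

end Pool.Agent.P.MP_909498_an
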