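import Pool.Agent.P.MP_909498_an.All1

/-!
Tools for periodic bounded maps.
-/

open scoped InnerProductSpace ComplexConjugate
open Filter Topology Polynomial

namespace Pool.Agent.P.MP_909498_an

variable {N : Submodule ℂ (L2 ℤ)} {S : ℤ → L2 ℤ →ₗᵢ[ℂ] L2 ℤ}

theorem Sh.no_eigen (h : Sh N S) {a : ℂ} {w : L2 ℤ} (hw : S 1 w = a • w) : w = 0 := by
  by_contra hc
  have h1 : ‖a‖ = 1 := by
    have := (S 1).norm_map w
    rw [hw, norm_smul] at this
    exact (mul_eq_right₀ (norm_ne_zero_iff.2 hc)).1 this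
  have h2 : ∀ i (n : ℕ), ‖w (i - n)‖ = ‖w i‖ := fun i n => by
    induction n with
    | zero => simp
    | succ n ih =>
      have e : w (i - n - 1) = a * w (i - n) := by
        rw [← h.app, hw]
        rfl
      rw [Nat.cast_succ, ← sub_sub, e, norm_mul, h1, one_mul, ih]
  refine hc (lp.ext (funext fun i => ?_))
  by_contra hi
  have hi' : 0 < ‖w i‖ ^ 2 := pow_pos (norm_pos_iff.2 hi) 2
  have h3 := eventually_cofinite.1
    ((hasSum_sq w).summable.tendsto_cofinite_zero.eventually (gt_mem_nhds hi'))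
  refine Set.infinite_of_injective_forall_mem (f := fun n : ℕ => i - n)
    (fun a b hab => by simpa using hab) (fun n => ?_) h3
  change ¬‖w (i - n)‖ ^ 2 < _
  rw [h2]
  exact lt_irrefl _

theorem Sh.inj_poly (h : Sh N S) (n : ℕ) : ∀ P : ℂ[X], P.natDegree = n → P ≠ 0 →
    ∀ w, aeval (S 1).toLinearMap P w = 0 → w = 0 := by
  induction n with
  | zero =>
    intro P hP h0 w hw
    rw [eq_C_of_natDegree_eq_zero hP] at hw h0
    simp only [aeval_C, Module.algebraMap_end_apply] at hw
    exact (smul_eq_zero.1 hw).resolve_left fun e => h0 (by rw [e, C_0])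
  | succ n ih =>
    intro P hP h0 w hw
    obtain ⟨a, ha⟩ := IsAlgClosed.exists_root P
      (natDegree_pos_iff_degree_pos.1 (by omega)).ne'
    obtain ⟨R, rfl⟩ := dvd_iff_isRoot.2 ha
    have hR : R ≠ 0 := right_ne_zero_of_mul h0
    rw [natDegree_mul (X_sub_C_ne_zero a) hR, natDegree_X_sub_C] at hP
    refine ih R (by omega) hR w (h.no_eigen (a := a) ?_)
    simp only [map_mul, map_sub, aeval_X, aeval_C, Module.End.mul_apply, LinearMap.sub_apply,
      Module.algebraMap_end_apply] at hw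
    exact sub_eq_zero.1 hw

theorem Sh.inj_sum (h : Sh N S) {κ : Type} (s : Finset κ) (g : κ → ℂ) (t : κ → ℤ) (v : ℤ)
    (hv : ∑ r ∈ s, (if t r = v then g r else 0) ≠ 0) {w : L2 ℤ}
    (hw : ∑ r ∈ s, g r • S (t r) w = 0) : w = 0 := by
  set L : ℕ := s.sup (fun r => (t r).natAbs) + v.natAbs with hL
  have h1 : ∀ r ∈ s, 0 ≤ t r + L := fun r hr => by
    have := Finset.le_sup (f := fun r => (t r).natAbs) hr
    omega
  have h2 : ∀ n : ℕ, ((S 1).toLinearMap ^ n) w = S n w := fun n => by
    induction n with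
    | zero => simp [h.zero]
    | succ n ih =>
      rw [pow_succ', Module.End.mul_apply, ih, Nat.cast_succ, add_comm, ← h.comp]
      rfl
  refine h.inj_poly _ (∑ r ∈ s, monomial (t r + L).toNat (g r)) rfl (fun e => hv ?_) w ?_
  · have := congrArg (fun P : ℂ[X] => P.coeff (v + L).toNat) e
    simp only [finsetSum_coeff, coeff_monomial, coeff_zero] at this
    refine (Finset.sum_congr rfl fun r hr => if_congr ?_ rfl rfl).trans this
    have := h1 r hr
    omega
  · have := congrArg (S L) hw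
    rw [map_sum, map_zero] at this
    rw [map_sum, LinearMap.sum_apply, ← this]
    refine Finset.sum_congr rfl fun r hr => ?_
    rw [aeval_monomial, Module.End.mul_apply, h2, Module.algebraMap_end_apply, map_smul, h.comp,
      Int.toNat_of_nonneg (h1 r hr), add_comm]

theorem sum_periodic {F : ℤ → ℂ} {q : ℕ} (hF : ∀ m, F (m + q) = F m) (u : ℤ) :
    ∑ i ∈ Finset.range q, F (u + i) = ∑ i ∈ Finset.range q, F i := by
  have h1 : ∀ u : ℤ, ∑ i ∈ Finset.range q, F (u + 1 + i) = ∑ i ∈ Finset.range q, F (u + i) :=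
    fun u => by
      have e1 := Finset.sum_range_succ (fun i : ℕ => F (u + i)) q
      rw [Finset.sum_range_succ', hF] at e1
      simp only [Nat.cast_succ, Nat.cast_zero, add_zero, add_left_inj] at e1
      rw [← e1]
      exact Finset.sum_congr rfl fun i _ => by rw [add_right_comm, add_assoc]
  induction u with
  | zero => simp
  | succ n ih => rw [h1, ih]
  | pred n ih => rw [← h1, sub_add_cancel, ih]

theorem fourier_zero {c : ℤ → ℂ} {q : ℕ} (hq : 0 < q) (hc : ∀ m, c (m + q) = c m)
    (h : ∀ a : ℂ, ‖a‖ = 1 → a ^ (q : ℤ) = 1 →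
      ∑ i ∈ Finset.range q, c i * a ^ (i : ℤ) = 0) (m : ℤ) : c m = 0 := by
  have hz := Complex.isPrimitiveRoot_exp q hq.ne'
  set z := Complex.exp (2 * Real.pi * Complex.I / q)
  have hP : (∑ i ∈ Finset.range q, monomial i (c i) : ℂ[X]) = 0 := by
    refine eq_zero_of_natDegree_lt_card_of_eval_eq_zero _ (f := fun i : Fin q => z ^ (i : ℕ))
      (fun i j hij => Fin.ext (hz.pow_inj i.2 j.2 hij)) (fun i => ?_) ?_
    · have := h (z ^ (i : ℕ)) (by rw [norm_pow, hz.norm'_eq_one hq.ne', one_pow])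
        (by rw [zpow_natCast, ← pow_mul, mul_comm, pow_mul, hz.pow_eq_one, one_pow])
      simpa only [eval_finsetSum, eval_monomial, zpow_natCast] using this
    · rw [Fintype.card_fin]
      refine lt_of_le_of_lt (natDegree_sum_le_of_forall_le _ _ (n := q - 1) fun i hi => ?_)
        (by omega)
      have := Finset.mem_range.1 hi
      exact (natDegree_monomial_le _).trans (by omega)
  have h1 : ∀ i < q, c i = 0 := fun i hi => by
    have := congrArg (fun P : ℂ[X] => P.coeff i) hP
    simpa [finsetSum_coeff, coeff_monomial, hi] using this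
  have h2 : Function.Periodic c (q : ℤ) := hc
  have h3 : 0 ≤ m % q := Int.emod_nonneg _ (by omega)
  have h4 : m % q < q := Int.emod_lt_of_pos _ (by omega)
  have h5 : c (m % q + m / q * q) = c (m % q) := h2.int_mul (m / q) (m % q)
  rw [← Int.emod_add_ediv_mul m q, h5, ← Int.toNat_of_nonneg h3]
  exact h1 _ (by omega)

variable [N.HasOrthogonalProjection]

theorem Bd.hasSum {C : ℝ} {σ : ℤ → Option ℤ} (hb : Bd N C σ) {x : L2 ℤ} (hx : x ∈ N)
    (y : L2 ℤ) : HasSum (fun m => x m * ⟪y, po N (σ m)⟫_ℂ) 0 := by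
  have h1 : HasSum (fun m => x m • pv N m) 0 := by
    have := hasSum_map (ContinuousLinearMap.id ℂ _ - N.starProjection) x
    rwa [sub_apply, Submodule.starProjection_eq_self_iff.2 hx,
      ContinuousLinearMap.id_apply, sub_self] at this
  have h2 := (h1.norm.const_mul C).const_mul ‖y‖
  rw [norm_zero, mul_zero, mul_zero] at h2
  refine squeeze_zero_norm (fun s => ?_) h2
  simp only [← inner_smul_right, ← inner_sum]
  exact (norm_inner_le_norm _ _).trans (mul_le_mul_of_nonneg_left (hb s x) (norm_nonneg _))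

/-- The key step: the two dilated kernels agree unless a finite trigonometric sum vanishes. -/
theorem Sh.circle (h : Sh N S) {C : ℝ} {σ : ℤ → Option ℤ} (hb : Bd N C σ) {q : ℕ} {p : ℤ}
    {χ : ℤ → ℂ} {e : ℤ → ℤ} (hχ : ∀ m, χ (m + q) = χ m) (he : ∀ m, e (m + q) = e m)
    (hn : ∀ m, σ m = none → χ m = 0)
    (hs : ∀ m j, σ m = some j → χ m = 1 ∧ e m = q * j - p * m)
    {a : ℂ} (ha : a ^ (q : ℤ) = 1) {Wq Wp : L2 ℤ →ₗᵢ[ℂ] L2 ℤ}
    (hq : IsW Wq (fun k => q * k) fun _ => 1) (hp : IsW Wp (fun k => p * k) fun k => a ^ k)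
    {v : ℤ} (hv : ∑ r ∈ Finset.range q, (if e r = v then χ r * a ^ (r : ℤ) else 0) ≠ 0) :
    Wp (MP_909498_an.pv N 0) = Wq (MP_909498_an.pv N 0) := by
  set y := MP_909498_an.pv N 0 with hy
  have hyN : y ∈ Nᗮ := pv_mem N 0
  have ha0 : a ≠ 0 := norm_ne_zero_iff.1 (by simpa using (hp.1 1).trans_ne one_ne_zero)
  have hχc : ∀ m, conj (χ m) = χ m := fun m => by
    cases e' : σ m with
    | none => simp [hn m e']
    | some j => simp [(hs m j e').1]
  have A : ∀ x ∈ N, ∀ b n : ℤ,
      HasSum (fun u => x u * (χ (u + b) * conj (Wq y (p * u + n + e (u + b))))) 0 := by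
    intro x hx b n
    by_cases hd : (q : ℤ) ∣ p * b - n
    · obtain ⟨c, hc⟩ := hd
      convert (hb.shift h b (-c)).hasSum hx y using 3 with u
      cases e' : σ (u + b) with
      | none => simp [hn _ e', MP_909498_an.po]
      | some j =>
        obtain ⟨e1, e2⟩ := hs _ j e'
        have e3 := hq.apply y (j + -c)
        rw [e1, e2, show p * u + n + (q * j - p * (u + b)) = q * (j + -c) by linarith, e3]
        simp [MP_909498_an.po, inner_pv' N hyN]
    · convert hasSum_zero with u
      cases e' : σ (u + b) with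
      | none => simp [hn _ e']
      | some j =>
        rw [(hs _ j e').2, hq.apply_out y fun k hk => hd ⟨j - k, by linarith⟩]
        simp
  set G : L2 ℤ → L2 ℤ := fun w => ∑ r ∈ Finset.range q, (χ r * a ^ (r : ℤ)) • S (-e r) w with hG
  set K := Submodule.span ℂ {w | ∃ n, ∃ x ∈ N, w = S n (Wp x)} with hK
  have hKS : Sh K S := ⟨h.isW, h.app, h.comp, fun t w hw =>
    (Submodule.span_le (p := K.comap (S t).toLinearMap)).2 (by
      rintro _ ⟨n, x, hx, rfl⟩
      exact Submodule.subset_span ⟨t + n, x, hx, h.comp _ _ _⟩) hw⟩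
  have hZS : Sh Kᗮ S := ⟨h.isW, h.app, h.comp, fun t w hw => hKS.orth t hw⟩
  have B : G (Wq y) ∈ Kᗮ := by
    refine (Submodule.mem_orthogonal' _ _).2 fun w hw => ?_
    induction hw using Submodule.span_induction with
    | zero => exact inner_zero_right _
    | add w w' _ _ h1 h2 => rw [inner_add_right, h1, h2, add_zero]
    | smul c w _ h1 => rw [inner_smul_right, h1, mul_zero]
    | mem w hw =>
      obtain ⟨n, x, hx, rfl⟩ := hw
      rw [← neg_neg n, ← h.inner]
      have h1 := hasSum_map ((innerSL ℂ (S (-n) (G (Wq y)))).comp Wp.toContinuousLinearMap) x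
      have h2 := hasSum_sum (s := Finset.range q) fun b _ =>
        (A x hx b n).mul_left (conj (a ^ (b : ℤ)))
      simp only [mul_zero, Finset.sum_const_zero] at h2
      refine h1.unique ?_
      refine (funext fun u => ?_ : (fun u => _) = fun u => _) ▸ h2
      symm
      change x u * ⟪S (-n) (G (Wq y)), Wp (eb u)⟫_ℂ = _
      have e1 := sum_periodic (q := q)
        (F := fun m => conj (χ m * a ^ m * Wq y (p * u + n + e m)))
        (fun m => by rw [hχ, he, zpow_add₀ ha0, ha, mul_one]) u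
      have e2 : conj (G (Wq y) (p * u + n)) =
          ∑ r ∈ Finset.range q, conj (χ r * a ^ (r : ℤ) * Wq y (p * u + n + e r)) := by
        simp only [hG, ← inner_eb, inner_sum, inner_smul_right, map_sum]
        simp only [inner_eb, h.app, sub_neg_eq_add]
      rw [hp.2, inner_smul_right, ← inner_conj_symm, inner_eb, h.app, sub_neg_eq_add, e2, ← e1,
        Finset.mul_sum, Finset.mul_sum]
      refine Finset.sum_congr rfl fun b _ => ?_
      have e3 := conj_mul_self (hp.1 u)
      simp only [zpow_add₀ ha0, map_mul, hχc]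
      linear_combination (x u * χ (u + b) * conj (a ^ (b : ℤ)) *
        conj (Wq y (p * u + n + e (u + b)))) * e3
  have hG1 : ∀ w ∈ Kᗮ, G w ∈ Kᗮ := fun w hw =>
    Submodule.sum_mem _ fun r _ => Submodule.smul_mem _ _ (hZS.pres _ _ hw)
  have hG2 : ∀ w ∈ Kᗮᗮ, G w ∈ Kᗮᗮ := fun w hw =>
    Submodule.sum_mem _ fun r _ => Submodule.smul_mem _ _ (hZS.orth _ hw)
  have D : Wq y ∈ Kᗮ := by
    have h1 := hG2 _ (Kᗮ.sub_starProjection_mem_orthogonal (Wq y))
    have h2 : G (Wq y - Kᗮ.starProjection (Wq y)) ∈ Kᗮ := by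
      have := Kᗮ.sub_mem B (hG1 _ (Kᗮ.starProjection_apply_mem (Wq y)))
      simpa only [hG, map_sub, smul_sub, Finset.sum_sub_distrib] using this
    have h3 := h.inj_sum _ _ (fun r : ℕ => -e r) (-v) (by simpa only [neg_inj] using hv)
      (inner_self_eq_zero.1 ((Submodule.mem_orthogonal _ _).1 h1 _ h2))
    exact Submodule.starProjection_eq_self_iff.1 (sub_eq_zero.1 h3).symm
  have h1 : ⟪Wp y, Wq y⟫_ℂ = ⟪y, y⟫_ℂ := by
    have e1 : ⟪Wp (N.starProjection (eb 0)), Wq y⟫_ℂ = 0 :=
      (Submodule.mem_orthogonal _ _).1 D _ (Submodule.subset_span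
        ⟨0, _, N.starProjection_apply_mem _, (h.zero _).symm⟩)
    have e2 := hq.apply y 0
    have e3 : ⟪N.starProjection (eb 0), y⟫_ℂ = 0 :=
      (Submodule.mem_orthogonal _ _).1 hyN _ (N.starProjection_apply_mem _)
    change ⟪Wp (eb 0 - N.starProjection (eb 0)), Wq y⟫_ℂ = ⟪eb 0 - N.starProjection (eb 0), y⟫_ℂ
    rw [map_sub, inner_sub_left, inner_sub_left, e1, e3, hp.2, inner_smul_left, inner_eb,
      inner_eb]
    simpa using e2
  refine sub_eq_zero.1 (inner_self_eq_zero (𝕜 := ℂ) |>.1 ?_)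
  rw [inner_sub_left, inner_sub_right, inner_sub_right, ← inner_conj_symm (Wq y) (Wp y), h1,
    inner_conj_symm, Wp.inner_map_map, Wq.inner_map_map]
  ring

end Pool.Agent.P.MP_909498_an
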