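import Pool.Agent.P.MP_909498_an.All2

/-!
Every bounded map is affine on residue classes.
-/

open scoped InnerProductSpace ComplexConjugate
open Filter Topology

namespace Pool.Agent.P.MP_909498_an

variable {N : Submodule ℂ (L2 ℤ)} [N.HasOrthogonalProjection] {S : ℤ → L2 ℤ →ₗᵢ[ℂ] L2 ℤ}

variable (N) in
/-- The domain is a union of classes modulo `d` and the map is affine on each class. -/
def Good (d : ℤ) (σ : ℤ → Option ℤ) : Prop :=
  ∀ k j, σ k = some j → (∀ t, σ (k + d * t) = some (j + d * t)) ∨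
    ((∀ n, pv N 0 (-n) = pv N 0 n) ∧ ∀ t, σ (k + d * t) = some (j - d * t))

theorem Sh.step_ne (h : Sh N S) (h0 : eb 0 ∉ N) {C : ℝ} {σ : ℤ → Option ℤ} (hb : Bd N C σ)
    {q : ℕ} (hq : 0 < q) (hper : ∀ k, σ (k + q) = σ k) {k j : ℤ} (hk : σ k = some j) : False := by
  have hc : 0 < ‖MP_909498_an.pv N j‖ := (norm_pos_iff.2 fun e =>
    h0 (Submodule.starProjection_eq_self_iff.1 (sub_eq_zero.1 e).symm)).trans_eq (h.dd 0 j)
  obtain ⟨n, hn⟩ := exists_nat_gt (C ^ 2 / ‖MP_909498_an.pv N j‖ ^ 2)
  have hn0 : (0 : ℝ) < n := lt_of_le_of_lt (by positivity) hn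
  have hP : Function.Periodic σ (q : ℤ) := hper
  have hinj : Function.Injective fun i : ℕ => k + i * (q : ℤ) := fun a b hab => by
    simpa [hq.ne'] using hab
  set s := (Finset.range n).map ⟨_, hinj⟩ with hs
  have h1 := hb s fun _ => 1
  have e1 : ∑ i ∈ s, (1 : ℂ) • MP_909498_an.po N (σ i) = (n : ℂ) • MP_909498_an.pv N j := by
    rw [hs, Finset.sum_map, Finset.sum_congr rfl (g := fun _ => MP_909498_an.pv N j) fun i _ => by
      have : σ (k + i * (q : ℤ)) = σ k := hP.nat_mul i k
      simp [this, hk, MP_909498_an.po]]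
    simp [Nat.cast_smul_eq_nsmul]
  have e2 := norm_sum_eb s fun _ => 1
  have e3 := pyth N (∑ i ∈ s, (1 : ℂ) • eb i) N.zero_mem
  have e4 : ∑ i ∈ s, (1 : ℂ) • eb i - N.starProjection (∑ i ∈ s, (1 : ℂ) • eb i) =
      ∑ i ∈ s, (1 : ℂ) • MP_909498_an.pv N i := by
    simp [MP_909498_an.pv, map_sum]
  rw [sub_zero, e2, e4] at e3
  have e5 : ∑ _i ∈ s, ‖(1 : ℂ)‖ ^ 2 = n := by simp [hs]
  rw [e1, norm_smul, Complex.norm_natCast] at h1
  have h2 := (pow_le_pow_left₀ (by positivity) h1 2).trans_eq (mul_pow _ _ _)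
  have h3 : ‖∑ i ∈ s, (1 : ℂ) • MP_909498_an.pv N i‖ ^ 2 ≤ n := by
    rw [← e5, e3]
    exact le_add_of_nonneg_right (sq_nonneg _)
  rw [div_lt_iff₀ (by positivity)] at hn
  have h4 := mul_le_mul_of_nonneg_left h3 (sq_nonneg C)
  nlinarith

theorem Sh.periodic (h : Sh N S) (h0 : eb 0 ∉ N) {C : ℝ} {σ : ℤ → Option ℤ} (hb : Bd N C σ)
    {d : ℤ} (hd : d ≠ 0)
    (hG : AddSubgroup.closure {n | MP_909498_an.pv N 0 n ≠ 0} = AddSubgroup.zmultiples d)
    {q : ℕ} (hq : 0 < q) {p : ℤ} (hper : ∀ k, σ (k + q) = (σ k).map (· + p)) : Good N d σ := by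
  intro k0 j0 hk0
  have hq' : (q : ℤ) ≠ 0 := by omega
  have hp : p ≠ 0 := by
    rintro rfl
    exact h.step_ne h0 hb hq (by simpa using hper) hk0
  set y := MP_909498_an.pv N 0 with hy
  set χ : ℤ → ℂ := fun m => if (σ m).isSome then 1 else 0 with hχ
  set e : ℤ → ℤ := fun m => ((σ m).map fun j => q * j - p * m).getD 0 with he
  have hχp : ∀ m, χ (m + q) = χ m := fun m => by simp [hχ, hper]
  have hep : ∀ m, e (m + q) = e m := fun m => by
    simp only [he, hper]
    cases σ m with
    | none => rfl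
    | some j =>
      simp only [Option.map_some, Option.getD_some]
      ring
  have hs : ∀ m j, σ m = some j → χ m = 1 ∧ e m = q * j - p * m := fun m j hm => by
    simp [hχ, he, hm]
  have hn : ∀ m, σ m = none → χ m = 0 := fun m hm => by simp [hχ, hm]
  set f : ℤ → ℂ := fun m => if e m = e k0 then χ m else 0 with hf
  have hfp : ∀ m, f (m + q) = f m := fun m => by simp only [hf, hχp, hep]
  have hf0 : f k0 = 1 := by simp [hf, (hs _ _ hk0).1]
  obtain ⟨Wq, hWq⟩ := exists_isW (mul_right_injective₀ hq') (u := fun _ => 1) fun _ => norm_one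
  have key : ∀ a : ℂ, ‖a‖ = 1 → a ^ (q : ℤ) = 1 →
      ∑ r ∈ Finset.range q, f r * a ^ (r : ℤ) ≠ 0 →
      (∀ m n, p * m = q * n → a ^ m * y m = y n) ∧ (∀ n, y n ≠ 0 → p ∣ q * n) ∧
        ∀ m, y m ≠ 0 → (q : ℤ) ∣ p * m := fun a ha ha' hv => by
    obtain ⟨Wp, hWp⟩ := exists_isW (mul_right_injective₀ hp) (u := fun k => a ^ k)
      fun k => by rw [norm_zpow, ha, one_zpow]
    have h1 : Wp y = Wq y := h.circle hb hχp hep hn hs ha' hWq hWp (v := e k0)
      (by simpa only [hf, ite_mul, zero_mul] using hv)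
    refine ⟨fun m n hmn => ?_, fun n hn => ?_, fun m hm => ?_⟩
    · have e1 := hWp.apply y m
      have e2 := hWq.apply y n
      rw [← e1, h1, hmn, e2, one_mul]
    · by_contra hc
      have e1 := hWp.apply_out y (i := q * n) fun k hk => hc ⟨k, hk.symm⟩
      have e2 := hWq.apply y n
      rw [← h1, e1, one_mul] at e2
      exact hn e2.symm
    · by_contra hc
      have e1 := hWq.apply_out y (i := p * m) fun k hk => hc ⟨k, hk.symm⟩
      have e2 := hWp.apply y m
      rw [h1, e1] at e2
      exact mul_ne_zero (zpow_ne_zero _ (norm_ne_zero_iff.1 (ha.trans_ne one_ne_zero))) hm e2.symm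
  obtain ⟨k1, k2, k3⟩ := key 1 norm_one (one_zpow _) (fun hc => by
    simp only [one_zpow, mul_one] at hc
    rw [← sum_periodic hfp k0] at hc
    have h1 := Finset.single_le_sum (s := Finset.range q) (f := fun i : ℕ => (f (k0 + i)).re)
      (fun i _ => by
        simp only [hf, hχ]
        split_ifs <;> simp) (Finset.mem_range.2 hq)
    rw [← Complex.re_sum, hc] at h1
    simp only [Nat.cast_zero, add_zero, hf0, Complex.one_re, Complex.zero_re] at h1
    linarith)
  simp only [one_zpow, one_mul] at k1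
  have hdm : d ∈ AddSubgroup.closure {n | y n ≠ 0} := hG ▸ AddSubgroup.mem_zmultiples d
  have hds : ∀ n, y n ≠ 0 → d ∣ n := fun n hn =>
    Int.mem_zmultiples_iff.1 (hG ▸ AddSubgroup.subset_closure hn)
  have hdv : ∀ a b : ℤ, (∀ n, y n ≠ 0 → ∃ m, b * n = a * m ∧ y m ≠ 0) → a ∣ b := fun a b hab => by
    have : ∀ x ∈ AddSubgroup.closure {n | y n ≠ 0}, a * d ∣ b * x := fun x hx => by
      induction hx using AddSubgroup.closure_induction with
      | mem n hn =>
        obtain ⟨m, hm, hm'⟩ := hab n hn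
        exact hm ▸ mul_dvd_mul_left a (hds m hm')
      | zero => simp
      | add x x' _ _ h1 h2 => exact mul_add b x x' ▸ dvd_add h1 h2
      | neg x _ h1 => simpa using h1
    exact (mul_dvd_mul_iff_right hd).1 (this d hdm)
  have hpq : p ∣ q := hdv _ _ fun n hn => by
    obtain ⟨m, hm⟩ := k2 n hn
    exact ⟨m, hm, (k1 m n hm.symm).trans_ne hn⟩
  have hqp : (q : ℤ) ∣ p := hdv _ _ fun m hm => by
    obtain ⟨n, hn⟩ := k3 m hm
    exact ⟨n, hn, (k1 m n hn).symm.trans_ne hm⟩
  obtain ⟨ε, hε, hpε⟩ : ∃ ε : ℤ, (ε = 1 ∨ ε = -1) ∧ p = q * ε := by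
    rcases Int.natAbs_eq_natAbs_iff.1 (Nat.dvd_antisymm (Int.natAbs_dvd_natAbs.2 hpq)
      (Int.natAbs_dvd_natAbs.2 hqp)) with e1 | e1
    · exact ⟨1, Or.inl rfl, by rw [e1, mul_one]⟩
    · exact ⟨-1, Or.inr rfl, by rw [e1, mul_neg_one]⟩
  have hfd : ∀ m, f (m - d) - f m = 0 := by
    refine fourier_zero hq (fun m => by rw [add_sub_right_comm, hfp, hfp]) fun a ha ha' => ?_
    have ha0 : a ≠ 0 := norm_ne_zero_iff.1 (ha.trans_ne one_ne_zero)
    have e1 := sum_periodic (q := q) (F := fun m => f (m - d) * a ^ m)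
      (fun m => by rw [add_sub_right_comm, hfp, zpow_add₀ ha0, ha', mul_one]) d
    simp only [add_sub_cancel_left, zpow_add₀ ha0, mul_left_comm _ (a ^ d)] at e1
    simp only [sub_mul, Finset.sum_sub_distrib]
    rw [← e1, ← Finset.mul_sum]
    by_cases hv : ∑ r ∈ Finset.range q, f r * a ^ (r : ℤ) = 0
    · rw [hv, mul_zero, sub_zero]
    · have : ∀ x ∈ AddSubgroup.closure {n | y n ≠ 0}, a ^ x = 1 := fun x hx => by
        induction hx using AddSubgroup.closure_induction with
        | mem m hm =>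
          have e2 : p * m = q * (ε * m) := by rw [hpε, mul_assoc]
          exact (mul_eq_right₀ hm).1 (((key a ha ha' hv).1 m _ e2).trans (k1 m _ e2).symm)
        | zero => simp
        | add x x' _ _ h1 h2 => rw [zpow_add₀ ha0, h1, h2, mul_one]
        | neg x _ h1 => rw [zpow_neg, h1, inv_one]
      rw [this d hdm, one_mul, sub_self]
  have hfP : Function.Periodic f d := fun m => by
    simpa using (sub_eq_zero.1 (hfd (m + d))).symm
  have hall : ∀ t, σ (k0 + d * t) = some (j0 + ε * (d * t)) := fun t => by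
    have h1 : f (k0 + t * d) = f k0 := hfP.int_mul t k0
    rw [hf0, mul_comm] at h1
    cases e' : σ (k0 + d * t) with
    | none => simp [hf, hn _ e'] at h1
    | some j =>
      have h2 : e (k0 + d * t) = e k0 := by
        by_contra hc
        simp [hf, hc] at h1
      rw [(hs _ _ e').2, (hs _ _ hk0).2, hpε] at h2
      exact congrArg some (mul_left_cancel₀ hq' (by linarith))
  rcases hε with rfl | rfl
  · exact Or.inl (by simpa using hall)
  · exact Or.inr ⟨fun n => k1 _ _ (by rw [hpε]; ring), by simpa [sub_eq_add_neg] using hall⟩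

theorem Sh.good (h : Sh N S) (hN : ∃ x ∈ N, x ≠ 0) (h0 : eb 0 ∉ N) {C : ℝ} (hC : 0 ≤ C)
    {d : ℤ} (hd : d ≠ 0)
    (hG : AddSubgroup.closure {n | MP_909498_an.pv N 0 n ≠ 0} = AddSubgroup.zmultiples d)
    {σ : ℤ → Option ℤ} (hb : Bd N C σ)
    (hc : ∀ i i' j j', σ i = some j → σ i' = some j' → d ∣ i - i') : Good N d σ := by
  obtain ⟨K, hK⟩ := h.determ hN h0 hC
  have hpt : ∀ σ, Bd N C σ → ∀ k j, σ k = some j →
      ∀ x : ℤ, ∃ i ∈ Finset.Ico x (x + K), ∃ j, σ i = some j := fun σ hb k j hk x => by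
    by_contra hx
    push Not at hx
    have := hK σ _ hb (bd_none hC) x fun i hi => Option.eq_none_iff_forall_ne_some.2 (hx i hi)
    simp [this] at hk
  have main : ∀ (n : ℕ) (σ : ℤ → Option ℤ), Bd N C σ →
      (∀ i i' j j', σ i = some j → σ i' = some j' → d ∣ i - i') →
      (∀ x : ℤ, ((Finset.Ico x (x + K)).filter fun i => (σ i).isSome).card ≤ n) → Good N d σ := by
    intro n
    induction n with
    | zero =>
      intro σ hb _ hn k j hk
      obtain ⟨i, hi, j', hj'⟩ := hpt σ hb k j hk 0
      exact absurd (Nat.le_zero.1 (hn 0))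
        (Finset.card_ne_zero_of_mem (Finset.mem_filter.2 ⟨hi, by simp [hj']⟩))
    | succ n ih =>
      intro σ hb hc hn k0 j0 hk0
      by_cases hL : ∃ L : ℕ, ∀ i i' j j' : ℤ, |i - i'| ≤ K → σ i = some j → σ i' = some j' →
          |j - j'| ≤ L
      · obtain ⟨L, hL⟩ := hL
        choose w hw b hb' using hpt σ hb k0 j0 hk0
        obtain ⟨x, x', hlt, hF⟩ := Set.Finite.exists_lt_map_eq_of_forall_mem
          (f := fun (x : ℕ) (i : Fin K) => (σ (i + x)).map (· + -b x))
          (t := Set.pi Set.univ fun _ => insert none (some '' Set.Icc (-L : ℤ) L))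
          (fun x i _ => by
            cases e' : σ (i + x) with
            | none => simp [e']
            | some j =>
              have h1 := Finset.mem_Ico.1 (hw x)
              have h2 := hL _ _ _ _ (by rw [abs_le]; omega) e' (hb' x)
              rw [abs_le] at h2
              simp only [e', Option.map_some]
              exact Or.inr ⟨_, ⟨by omega, by omega⟩, rfl⟩)
          (Set.Finite.pi fun _ => ((Set.finite_Icc _ _).image _).insert _)
        have h1 := hK _ _ (hb.shift h x (-b x)) (hb.shift h x' (-b x')) 0 fun i hi => by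
          have h2 := Finset.mem_Ico.1 hi
          have h3 := congrFun hF ⟨i.toNat, by omega⟩
          simpa only [Int.toNat_of_nonneg h2.1] using h3
        refine h.periodic h0 hb hd hG (q := x' - x) (by omega) (p := b x' - b x) (fun k => ?_) _ _
          hk0
        have h2 := congrFun h1 (k - x)
        rw [sub_add_cancel] at h2
        rw [show k + (x' - x : ℕ) = k - x + x' by omega]
        revert h2
        rcases σ k with _ | a <;> rcases σ (k - x + x') with _ | a' <;> simp
        omega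
      · exfalso
        push Not at hL
        choose i i' j j' h1 h2 h3 h4 using hL
        obtain ⟨ρ, hρb, hρ⟩ := exists_ulim (hyperfilter ℕ) fun m => hb.shift h (i m) (-j m)
        obtain ⟨ρ', hρb', hρ'⟩ := exists_ulim (hyperfilter ℕ) fun m => hb.shift h (i m) (-j' m)
        have hρ0 : ρ 0 = some 0 := (hρ 0 0).2 (Eventually.of_forall fun m => by simp [h2])
        obtain ⟨u, -, hu⟩ := ((hyperfilter ℕ).eventually_exists_mem_iff
          (is := Set.Icc (-K : ℤ) K) (P := fun u m => u + i m = i' m) (Set.finite_Icc _ _)).1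
          (Eventually.of_forall fun m => ⟨i' m - i m, by
            have := abs_le.1 (h1 m)
            constructor <;> omega, sub_add_cancel _ _⟩)
        have hρu : ρ' u = some 0 := (hρ' u 0).2 (hu.mono fun m hm => by simp [hm, h3])
        have hdis : ∀ k a a', ρ k = some a → ρ' k = some a' → False := fun k a a' ha ha' => by
          obtain ⟨m, ⟨e1, e2⟩, e3⟩ := ((((hρ k a).1 ha).and ((hρ' k a').1 ha')).and
            (Nat.hyperfilter_le_atTop (eventually_ge_atTop (a - a').natAbs))).exists
          have e4 := h4 m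
          revert e1 e2
          rcases σ (k + i m) with _ | b <;> simp
          rintro rfl rfl
          rw [lt_abs] at e4
          omega
        have hdom : ∀ k, (ρ k).isSome ∨ (ρ' k).isSome →
            ∀ᶠ m in hyperfilter ℕ, ∃ b, σ (k + i m) = some b := fun k hk => by
          rcases hk with hk | hk <;> obtain ⟨a, ha⟩ := Option.isSome_iff_exists.1 hk
          · exact ((hρ k a).1 ha).mono fun m hm => (Option.map_eq_some_iff.1 hm).imp fun _ => And.left
          · exact ((hρ' k a).1 ha).mono fun m hm =>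
              (Option.map_eq_some_iff.1 hm).imp fun _ => And.left
        have hcl : ∀ k k', (ρ k).isSome ∨ (ρ' k).isSome → (ρ k').isSome → d ∣ k - k' :=
          fun k k' hk hk' => by
            obtain ⟨m, ⟨b, e1⟩, b', e2⟩ := ((hdom k hk).and (hdom k' (Or.inl hk'))).exists
            simpa using hc _ _ _ _ e1 e2
        have hg := ih ρ hρb (fun k k' a a' ha ha' => hcl k k' (by simp [ha]) (by simp [ha']))
          (fun x => by
            obtain ⟨w, hw, a', ha'⟩ := hpt ρ' hρb' u 0 hρu x
            obtain ⟨m, hm⟩ := ((eventually_all_finset ((Finset.Ico x (x + K)).filter fun k =>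
              (ρ k).isSome ∨ (ρ' k).isSome)).2 fun k hk =>
                hdom k (Finset.mem_filter.1 hk).2).exists
            have hwn : w ∉ (Finset.Ico x (x + K)).filter fun k => (ρ k).isSome := fun e => by
              obtain ⟨a, ha⟩ := Option.isSome_iff_exists.1 (Finset.mem_filter.1 e).2
              exact hdis w a a' ha ha'
            refine Nat.le_of_succ_le_succ (((Finset.card_insert_of_notMem hwn).symm.trans_le
              (Finset.card_le_card_of_injOn (· + i m) (fun k hk => ?_)
                (add_left_injective _).injOn)).trans (hn (x + i m)))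
            have hk' : k ∈ Finset.Ico x (x + K) ∧ ((ρ k).isSome ∨ (ρ' k).isSome) := by
              rcases Finset.mem_insert.1 hk with rfl | hk
              · exact ⟨hw, Or.inr (by simp [ha'])⟩
              · exact ⟨(Finset.mem_filter.1 hk).1, Or.inl (Finset.mem_filter.1 hk).2⟩
            obtain ⟨b, hb⟩ := hm k (Finset.mem_filter.2 hk')
            have := Finset.mem_Ico.1 hk'.1
            exact Finset.mem_filter.2 ⟨Finset.mem_Ico.2
              ⟨by beta_reduce; omega, by beta_reduce; omega⟩, by simp [hb]⟩) 0 0 hρ0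
        obtain ⟨t, ht⟩ := hcl u 0 (by simp [hρu]) (by simp [hρ0])
        rw [sub_zero] at ht
        rcases hg with hg | ⟨-, hg⟩ <;>
          exact hdis u _ _ (by rw [ht, ← zero_add (d * t)]; exact hg t) hρu
  exact main K σ hb hc fun x => (Finset.card_filter_le _ _).trans (by simp)

end Pool.Agent.P.MP_909498_an
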