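import Pool.Agent.P.MP_909498_an.All3

/-!
All index maps represented by a bounded operator, for a stationary overcomplete frame sequence.
-/

open scoped InnerProductSpace ComplexConjugate
open Filter Topology

namespace Pool.Agent.P.MP_909498_an

variable {H : Type} [NormedAddCommGroup H] [InnerProductSpace ℂ H]

theorem IsSyn.rep_of_ker {ι : Type} [DecidableEq ι] {f : ι → H} {U : L2 ι →L[ℂ] H}
    (hU : IsSyn f U) {A : ℝ} (hA : 0 < A)
    (hl : ∀ x, A * ‖x - U.ker.starProjection x‖ ^ 2 ≤ ‖U x‖ ^ 2) {τ : ι → ι}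
    (T : L2 ι →L[ℂ] H) (hT : ∀ k, T (eb k) = f (τ k)) (hN : ∀ x ∈ U.ker, T x = 0) :
    BddRep f τ := by
  have hb : ∀ x, ‖T x‖ ≤ ‖T‖ / √A * ‖U x‖ := fun x => by
    have h2 : T x = T (x - U.ker.starProjection x) := by
      rw [map_sub, hN _ (U.ker.starProjection_apply_mem x), sub_zero]
    have h3 : √A * ‖x - U.ker.starProjection x‖ ≤ ‖U x‖ := by
      refine (sq_le_sq₀ (by positivity) (norm_nonneg _)).1 ?_
      rw [mul_pow, Real.sq_sqrt hA.le]
      exact hl x
    have h4 := T.le_opNorm (x - U.ker.starProjection x)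
    rw [← h2] at h4
    have hs : 0 < √A := Real.sqrt_pos.2 hA
    calc ‖T x‖ ≤ ‖T‖ / √A * (√A * ‖x - U.ker.starProjection x‖) := by
          rw [← mul_assoc, div_mul_cancel₀ _ hs.ne']
          exact h4
      _ ≤ _ := mul_le_mul_of_nonneg_left h3 (by positivity)
  obtain ⟨R, hR⟩ := (U : L2 ι →ₗ[ℂ] H).rangeRestrict.exists_rightInverse_of_surjective
    (LinearMap.range_rangeRestrict _)
  have hle : Submodule.span ℂ (Set.range f) ≤ (U : L2 ι →ₗ[ℂ] H).range :=
    Submodule.span_le.2 (by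
      rintro _ ⟨k, rfl⟩
      exact ⟨eb k, hU k⟩)
  have hRU : ∀ y, U (R y) = y.1 := fun y => congrArg Subtype.val (LinearMap.congr_fun hR y)
  let V0 : Submodule.span ℂ (Set.range f) →ₗ[ℂ] H :=
    (T : L2 ι →ₗ[ℂ] H) ∘ₗ R ∘ₗ Submodule.inclusion hle
  have hV0 : ∀ y, ‖V0 y‖ ≤ ‖T‖ / √A * ‖y‖ := fun y => by
    have := hb (R (Submodule.inclusion hle y))
    rw [hRU] at this
    exact this
  refine ⟨V0.mkContinuous _ hV0, fun k => ?_⟩
  set y := R (Submodule.inclusion hle ⟨f k, Submodule.subset_span ⟨k, rfl⟩⟩) with hy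
  have h1 : y - eb k ∈ U.ker := by
    change U (y - eb k) = 0
    rw [map_sub, hy, hRU, hU]
    exact sub_self _
  have h2 := hN _ h1
  rw [map_sub, hT, sub_eq_zero] at h2
  exact h2

theorem IsSyn.bd_of_rep {f : ℤ → H} {U : L2 ℤ →L[ℂ] H} (hU : IsSyn f U) {A : ℝ} (hA : 0 < A)
    (hl : ∀ x, A * ‖x - U.ker.starProjection x‖ ^ 2 ≤ ‖U x‖ ^ 2) {τ : ℤ → ℤ} (h : BddRep f τ) :
    ∃ C, 0 ≤ C ∧ Bd U.ker C fun k => some (τ k) := by
  obtain ⟨V, hV⟩ := h
  have hs : 0 < √A := Real.sqrt_pos.2 hA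
  refine ⟨‖V‖ * ‖U‖ / √A, by positivity, fun s c => ?_⟩
  have h1 := V.le_opNorm (∑ k ∈ s, c k • ⟨f k, Submodule.subset_span ⟨k, rfl⟩⟩)
  rw [_root_.map_sum] at h1
  simp only [map_smul, hV] at h1
  have h2 : ‖∑ k ∈ s, c k • f (τ k)‖ ≤ ‖V‖ * ‖∑ k ∈ s, c k • f k‖ := by simpa using h1
  have hp : ∀ k, U (pv U.ker k) = f k := fun k => by
    have h0 : U (U.ker.starProjection (eb k)) = 0 := U.ker.starProjection_apply_mem _
    rw [pv, map_sub, h0, sub_zero, hU]
  have h3 := U.le_opNorm (∑ k ∈ s, c k • pv U.ker k)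
  have h4 := hl (∑ k ∈ s, c k • pv U.ker (τ k))
  rw [(Submodule.starProjection_apply_eq_zero_iff _).2
    (Submodule.sum_mem _ fun k _ => Submodule.smul_mem _ _ (pv_mem _ _)), sub_zero] at h4
  simp only [_root_.map_sum, map_smul, hp] at h3 h4
  have h5 : √A * ‖∑ k ∈ s, c k • pv U.ker (τ k)‖ ≤ ‖∑ k ∈ s, c k • f (τ k)‖ := by
    refine (sq_le_sq₀ (by positivity) (norm_nonneg _)).1 ?_
    rw [mul_pow, Real.sq_sqrt hA.le]
    exact h4
  rw [div_mul_eq_mul_div, le_div_iff₀' hs, mul_assoc]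
  exact h5.trans (h2.trans (mul_le_mul_of_nonneg_left h3 V.opNorm_nonneg))

theorem Bd.restrict {N : Submodule ℂ (L2 ℤ)} [N.HasOrthogonalProjection] {C : ℝ} (hC : 0 ≤ C)
    {σ : ℤ → Option ℤ} (hb : Bd N C σ) (P : ℤ → Prop) [DecidablePred P]
    (ho : ∀ i j, P i → ¬P j → pv N i j = 0) : Bd N C fun i => if P i then σ i else none := by
  intro s c
  have e1 : ∑ i ∈ s, c i • po N (if P i then σ i else none) =
      ∑ i ∈ s.filter P, c i • po N (σ i) := by
    rw [Finset.sum_filter]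
    exact Finset.sum_congr rfl fun i _ => by split_ifs <;> simp [po]
  rw [e1]
  refine (hb _ c).trans (mul_le_mul_of_nonneg_left ?_ hC)
  have h1 := norm_add_sq_eq_norm_sq_add_norm_sq_of_inner_eq_zero (𝕜 := ℂ)
    (∑ i ∈ s.filter P, c i • pv N i) (∑ i ∈ s.filter fun i => ¬P i, c i • pv N i) (by
      rw [sum_inner]
      refine Finset.sum_eq_zero fun i hi => ?_
      rw [inner_sum]
      refine Finset.sum_eq_zero fun j hj => ?_
      rw [inner_smul_left, inner_smul_right, inner_pv' N (pv_mem N i),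
        ho i j (Finset.mem_filter.1 hi).2 (Finset.mem_filter.1 hj).2]
      simp)
  rw [Finset.sum_filter_add_sum_filter_not] at h1
  exact (mul_self_le_mul_self_iff (norm_nonneg _) (norm_nonneg _)).2
    (h1 ▸ le_add_of_nonneg_right (mul_self_nonneg _))

theorem classify_all [CompleteSpace H] {f : ℤ → H}
    (hg : ∀ j k t, ⟪f (j + t), f (k + t)⟫_ℂ = ⟪f j, f k⟫_ℂ) (hf0 : f 0 ≠ 0)
    (hf : IsFrameSeq f) (hR : ¬IsRieszSeq f) :
    ∃ d : ℕ, 0 < d ∧ ∀ τ : ℤ → ℤ, (BddRep f τ ↔ ∀ k,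
      (∀ t, τ (k + d * t) = τ k + d * t) ∨
        (BddRep f (fun n => -n) ∧ ∀ t, τ (k + d * t) = τ k - d * t)) := by
  obtain ⟨U, A, hA, hU, hl⟩ := exists_syn hf
  have hN := hU.ker_ne hA hl hR
  obtain ⟨S, hS, h1, h2⟩ := exists_shifts
  have h : Sh U.ker S := ⟨hS, h1, h2, fun t => hU.pres_of_gram (hS t) fun j k => by
    simpa using hg j k t⟩
  have h0 : eb 0 ∉ U.ker := fun e => hf0 ((hU 0).symm.trans e)
  set y := pv U.ker 0 with hy
  have hpv : ∀ i j, pv U.ker i j = y (j - i) := fun i j => by rw [← h1, hy, h.pv, zero_add]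
  have hq : ∀ j k, qq U.ker j k = (if j = k then 1 else 0) - y (j - k) := fun j k => by
    rw [← hpv, ← eb_apply]
    exact (sub_sub_cancel _ _).symm
  obtain ⟨n0, hn0, hn0'⟩ := exists_off hU hf0 hN h.dd fun j k => by
    simp only [hq, zero_sub, neg_sub, eq_comm (a := (0 : ℤ)), sub_eq_zero, eq_comm (a := k)]
  obtain ⟨a, ha⟩ := Int.subgroup_cyclic (AddSubgroup.closure {n | y n ≠ 0})
  have hG : AddSubgroup.closure {n | y n ≠ 0} = AddSubgroup.zmultiples (a.natAbs : ℤ) := by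
    rw [ha, ← AddSubgroup.zmultiples_eq_closure, Int.zmultiples_natAbs]
  set d := a.natAbs
  have hdv : ∀ n, ¬(d : ℤ) ∣ n → y n = 0 := fun n hn => by
    by_contra hc
    exact hn (Int.mem_zmultiples_iff.1 (hG ▸ AddSubgroup.subset_closure hc))
  have hpos : 0 < d := Nat.pos_of_ne_zero fun e => by
    rw [hq, if_neg hn0.symm, hdv _ (by simpa [e] using hn0)] at hn0'
    simp at hn0'
  have back : ∀ (τ : ℤ → ℤ) (u : ℤ → ℂ), Function.Bijective τ → (∀ k, ‖u k‖ = 1) →
      (∀ j k, u k * y (τ j - τ k) = u j * y (j - k)) →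
      ∃ W, IsW W τ u ∧ ∀ x ∈ U.ker, W x ∈ U.ker := fun τ u hτ hu e => by
    obtain ⟨W, hW⟩ := exists_isW hτ.1 hu
    refine ⟨W, hW, hW.pres hτ.2 fun j k => ?_⟩
    rw [hq, hq, mul_sub, mul_sub, e]
    by_cases hjk : j = k
    · rw [hjk, if_pos rfl, if_pos rfl]
    · rw [if_neg hjk, if_neg fun e' => hjk (hτ.1 e'), mul_zero, mul_zero]
  have hrefl : BddRep f (fun n => -n) ↔ ∀ n, y (-n) = y n := by
    refine ⟨fun hb n => ?_, fun hb => ?_⟩
    · obtain ⟨W, hW⟩ := exists_isW (neg_injective (G := ℤ)) (u := fun _ => 1) fun _ => norm_one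
      simpa [hq] using hW.qq_rel (hU.pres_of_rep hW hb) (fun _ => h.dd _ _) n 0
    · obtain ⟨W, hW, hW'⟩ := back (fun n => -n) (fun _ => 1) neg_involutive.bijective
        (fun _ => norm_one) fun j k => by rw [← hb (j - k), neg_sub_neg, neg_sub]
      exact hU.rep_of_pres hA hl hW hW'
  refine ⟨d, hpos, fun τ => ⟨fun hb k => ?_, fun hb => ?_⟩⟩
  · obtain ⟨C, hC, hb⟩ := hU.bd_of_rep hA hl hb
    have h3 := h.good hN h0 hC (by omega) hG (hb.restrict hC (fun i => (d : ℤ) ∣ i - k)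
      fun i j hi hj => by
        rw [hpv, hdv _ fun e => hj (by simpa using e.add hi)]) (fun i i' j j' e e' => by
        split_ifs at e e' with e1 e2
        simpa using e1.sub e2) k (τ k) (by simp)
    simpa [hrefl] using h3
  · have h3 : ∀ r : ℕ, ∃ (ρ : ℤ → ℤ) (W : L2 ℤ →ₗᵢ[ℂ] L2 ℤ), (IsW W ρ fun _ => 1) ∧
        (∀ x ∈ U.ker, W x ∈ U.ker) ∧ ∀ k, (d : ℤ) ∣ k - r → ρ k = τ k := fun r => by
      rcases hb r with e | ⟨e, e'⟩
      · exact ⟨_, _, hS (τ r - r), h.pres _, fun k ⟨t, ht⟩ => by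
          rw [eq_add_of_sub_eq' ht, e]
          ring⟩
      · obtain ⟨W, hW, hW'⟩ := back (fun n => τ r + r - n) (fun _ => 1)
          (Equiv.subLeft _).bijective (fun _ => norm_one) fun j k => by
            rw [← hrefl.1 e (j - k), neg_sub, sub_sub_sub_cancel_left]
        exact ⟨_, W, hW, hW', fun k ⟨t, ht⟩ => by
          rw [eq_add_of_sub_eq' ht, e']
          ring⟩
    choose ρ W hW hW' hρ using h3
    choose E hE hE' using fun r : ℕ => back id (fun k => if (d : ℤ) ∣ k - r then 1 else -1)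
      Function.bijective_id (fun k => by split_ifs <;> simp) fun j k => by
        by_cases hjk : (d : ℤ) ∣ j - k
        · rw [if_congr (Q := (d : ℤ) ∣ j - r)
            ⟨fun e => by simpa using hjk.add e, fun e => by simpa using e.sub hjk⟩ rfl rfl]
          rfl
        · simp [hdv _ hjk]
    refine hU.rep_of_ker hA hl (∑ r ∈ Finset.range d, (2⁻¹ : ℂ) •
      (U.comp (W r).toContinuousLinearMap).comp
        (ContinuousLinearMap.id ℂ _ + (E r).toContinuousLinearMap)) (fun k => ?_) fun x hx => ?_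
    · have e1 : ∀ r : ℕ, (2⁻¹ : ℂ) • U (W r (eb k + E r (eb k))) =
          if (d : ℤ) ∣ k - r then f (τ k) else 0 := fun r => by
        rw [(hE r).2]
        beta_reduce
        split_ifs with e
        · rw [one_smul, id, ← two_smul ℂ, map_smul, map_smul, (hW r).2, one_smul, hU, hρ r k e,
            smul_smul]
          simp
        · simp
      have h4 : 0 ≤ k % d := Int.emod_nonneg _ (by omega)
      have h5 : k % d < d := Int.emod_lt_of_pos _ (by omega)
      have h6 : (d : ℤ) ∣ k - (k % d).toNat := by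
        rw [Int.toNat_of_nonneg h4]
        exact Int.dvd_self_sub_emod
      rw [_root_.sum_apply, Finset.sum_eq_single (k % d).toNat]
      · exact (e1 _).trans (if_pos h6)
      · refine fun r hr hne => (e1 r).trans (if_neg fun e => hne ?_)
        have h7 := Finset.mem_range.1 hr
        have h8 := Int.eq_zero_of_abs_lt_dvd (e.sub h6) (by rw [abs_lt]; omega)
        omega
      · exact fun hr => absurd (Finset.mem_range.2 (by omega)) hr
    · rw [_root_.sum_apply]
      refine Finset.sum_eq_zero fun r _ => ?_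
      have h4 : U (W r (x + E r x)) = 0 := hW' r _ (U.ker.add_mem hx (hE' r x hx))
      change (2⁻¹ : ℂ) • U (W r (x + E r x)) = 0
      rw [h4, smul_zero]

end Pool.Agent.P.MP_909498_an
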