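import Mathlib

/-!
Injective maps of `ℤ` which preserve a weight tending to zero are affine on cosets, and a
counting lemma.
-/

namespace Pool.Agent.P.MP_909498_an

section

variable {a : ℤ → ℝ} {τ : ℤ → ℤ}

/-- The finite level sets. -/
theorem level (hfin : ∀ δ : ℝ, 0 < δ → {n | δ ≤ a n}.Finite) (hsym : ∀ n, a (-n) = a n)
    (hτ : Function.Injective τ) (ha : ∀ j k, a (τ k - τ j) = a (k - j)) {δ : ℝ} (hδ : 0 < δ) :
    ∃ S : Finset ℤ, (∀ n, n ∈ S ↔ n ≠ 0 ∧ δ ≤ a n) ∧ ∑ n ∈ S, n = 0 ∧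
      ∀ (x : ℤ) (g : ℤ → ℤ), ∑ n ∈ S, g (τ (x + n) - τ x) = ∑ n ∈ S, g n := by
  have hS : ∀ n, n ∈ (hfin δ hδ).toFinset.erase 0 ↔ n ≠ 0 ∧ δ ≤ a n := fun n => by
    rw [Finset.mem_erase, Set.Finite.mem_toFinset, Set.mem_ofPred_eq]
  refine ⟨_, hS, ?_, fun x g => ?_⟩
  · refine Finset.sum_involution (fun n _ => -n) (fun n _ => add_neg_cancel n)
      (fun n _ hn e => hn (by omega)) (fun n hn => ?_) fun n _ => neg_neg n
    rw [hS] at hn ⊢
    exact ⟨neg_ne_zero.2 hn.1, by rw [hsym]; exact hn.2⟩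
  · have hinj : Function.Injective fun n => τ (x + n) - τ x := fun n n' e =>
      add_left_cancel (hτ (sub_left_injective e))
    have himg : ((hfin δ hδ).toFinset.erase 0).image (fun n => τ (x + n) - τ x) =
        (hfin δ hδ).toFinset.erase 0 := by
      refine Finset.eq_of_subset_of_card_le (fun m hm => ?_)
        (Finset.card_image_of_injective _ hinj).ge
      obtain ⟨n, hn, rfl⟩ := Finset.mem_image.1 hm
      rw [hS] at hn ⊢
      refine ⟨fun e => hn.1 ?_, ?_⟩
      · have := hτ (sub_eq_zero.1 e)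
        omega
      · rw [ha, add_sub_cancel_left]
        exact hn.2
    rw [← Finset.sum_image (f := g) hinj.injOn, himg]

theorem incr_const (hfin : ∀ δ : ℝ, 0 < δ → {n | δ ≤ a n}.Finite) (hsym : ∀ n, a (-n) = a n)
    (hτ : Function.Injective τ) (ha : ∀ j k, a (τ k - τ j) = a (k - j)) {s : ℤ} (hs : 0 < a s)
    (x : ℤ) {z : ℤ} (hz : z ∈ AddSubgroup.closure {n | n ≠ 0 ∧ 0 < a n}) :
    τ (x + z + s) - τ (x + z) = τ (x + s) - τ x := by
  set G := AddSubgroup.closure {n | n ≠ 0 ∧ 0 < a n} with hG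
  obtain ⟨b, hb⟩ := (hfin _ hs).bddAbove
  obtain ⟨v, ⟨y0, hy0, hv⟩, hmax⟩ := Int.exists_greatest_of_bdd
    (P := fun v => ∃ y ∈ G, τ (x + y + s) - τ (x + y) = v)
    ⟨b, by
      rintro _ ⟨y, -, rfl⟩
      refine hb ?_
      rw [Set.mem_ofPred_eq, ha, add_sub_cancel_left]⟩
    ⟨_, 0, G.zero_mem, rfl⟩
  have step : ∀ n, n ≠ 0 → 0 < a n → ∀ y ∈ G, τ (x + y + s) - τ (x + y) = v →
      τ (x + (y + n) + s) - τ (x + (y + n)) = v := by
    intro n hn0 hn y hy hyv
    obtain ⟨S, hS, h0, hsum⟩ := level hfin hsym hτ ha hn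
    have h1 := hsum (x + y + s) id
    have h2 := hsum (x + y) id
    simp only [id, h0] at h1 h2
    have h3 : ∑ m ∈ S, (τ (x + (y + m) + s) - τ (x + (y + m)) - v) = 0 := by
      have h5 := congrArg₂ (· - ·) h1 h2
      simp only [sub_self] at h5
      rw [← h5, ← Finset.sum_sub_distrib]
      refine Finset.sum_congr rfl fun m _ => ?_
      rw [← hyv, show x + (y + m) + s = x + y + s + m by ring, show x + (y + m) = x + y + m by ring]
      ring
    have h4 := (Finset.sum_eq_zero_iff_of_nonpos fun m hm => by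
      have hm' := (hS m).1 hm
      exact sub_nonpos.2 (hmax _ ⟨y + m,
        G.add_mem hy (AddSubgroup.subset_closure ⟨hm'.1, hn.trans_le hm'.2⟩), rfl⟩)).1 h3 n
      ((hS n).2 ⟨hn0, le_rfl⟩)
    exact sub_eq_zero.1 h4
  have all : ∀ w ∈ G, ∀ y ∈ G, τ (x + y + s) - τ (x + y) = v →
      τ (x + (y + w) + s) - τ (x + (y + w)) = v := by
    intro w hw
    induction hw using AddSubgroup.closure_induction'' with
    | mem n hn => exact step n hn.1 hn.2
    | neg_mem n hn => exact step (-n) (neg_ne_zero.2 hn.1) (by rw [hsym]; exact hn.2)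
    | zero => intro y _ h; rwa [add_zero]
    | add w w' hw _ ih ih' =>
      intro y hy h
      rw [← add_assoc y]
      exact ih' _ (G.add_mem hy hw) (ih y hy h)
  have e1 := all (z - y0) (G.sub_mem hz hy0) y0 hy0 hv
  have e2 := all (-y0) (G.neg_mem hy0) y0 hy0 hv
  rw [add_sub_cancel] at e1
  rw [add_neg_cancel, add_zero] at e2
  rw [e1, e2]

theorem affine (hfin : ∀ δ : ℝ, 0 < δ → {n | δ ≤ a n}.Finite) (hsym : ∀ n, a (-n) = a n)
    (hτ : Function.Injective τ) (ha : ∀ j k, a (τ k - τ j) = a (k - j)) {d : ℤ} (hd : 0 < d)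
    (hG : AddSubgroup.closure {n | n ≠ 0 ∧ 0 < a n} = AddSubgroup.zmultiples d) (x : ℤ) :
    (∀ t, τ (x + d * t) = τ x + d * t) ∨ ∀ t, τ (x + d * t) = τ x - d * t := by
  set G := AddSubgroup.closure {n | n ≠ 0 ∧ 0 < a n} with hG'
  have all : ∀ w ∈ G, ∀ z ∈ G, τ (x + z + w) - τ (x + z) = τ (x + w) - τ x := by
    intro w hw
    induction hw using AddSubgroup.closure_induction'' with
    | mem n hn => exact fun z hz => incr_const hfin hsym hτ ha hn.2 x hz
    | neg_mem n hn =>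
      exact fun z hz => incr_const hfin hsym hτ ha (by rw [hsym]; exact hn.2) x hz
    | zero => intro z _; simp
    | add w w' hw _ ih ih' =>
      intro z hz
      have e1 := ih' _ (G.add_mem hz hw)
      have e2 := ih z hz
      have e3 := ih' _ hw
      simp only [← add_assoc] at e1 e3 ⊢
      omega
  have hmem : ∀ t, d * t ∈ G := fun t => by
    rw [hG, Int.mem_zmultiples_iff]
    exact dvd_mul_right d t
  have hdG : d ∈ G := by simpa using hmem 1
  set e := τ (x + d) - τ x with he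
  have lin : ∀ t, τ (x + d * t) = τ x + e * t := by
    intro t
    induction t using Int.induction_on with
    | zero => simp
    | succ t ih =>
      have := all d hdG _ (hmem t)
      rw [mul_add, mul_add, mul_one, mul_one, ← add_assoc]
      omega
    | pred t ih =>
      have := all d hdG _ (hmem (-(t : ℤ) - 1))
      rw [show x + d * (-(t : ℤ) - 1) + d = x + d * -(t : ℤ) by ring, ih] at this
      rw [mul_sub e, mul_one]
      omega
  have hex : ∃ s, s ≠ 0 ∧ 0 < a s := by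
    by_contra hc
    have : {n | n ≠ 0 ∧ 0 < a n} = ∅ := Set.eq_empty_of_forall_notMem fun n hn => hc ⟨n, hn⟩
    rw [hG', this, AddSubgroup.closure_empty, AddSubgroup.mem_bot] at hdG
    exact hd.ne' hdG
  obtain ⟨s, hs0, hs⟩ := hex
  obtain ⟨S, hS, -, hsum⟩ := level hfin hsym hτ ha hs
  have h1 := hsum x fun n => |n|
  have h2 : d * ∑ n ∈ S, |τ (x + n) - τ x| = |e| * ∑ n ∈ S, |n| := by
    rw [Finset.mul_sum, Finset.mul_sum]
    refine Finset.sum_congr rfl fun n hn => ?_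
    have hn' := (hS n).1 hn
    have : n ∈ G := AddSubgroup.subset_closure ⟨hn'.1, hs.trans_le hn'.2⟩
    rw [hG, Int.mem_zmultiples_iff] at this
    obtain ⟨t, rfl⟩ := this
    rw [lin, add_sub_cancel_left, abs_mul, abs_mul, abs_of_pos hd]
    ring
  have h3 : 0 < ∑ n ∈ S, |n| :=
    Finset.sum_pos (fun n hn => abs_pos.2 ((hS n).1 hn).1) ⟨s, (hS s).2 ⟨hs0, le_rfl⟩⟩
  rw [h1] at h2
  have h4 : |e| = d := (mul_right_cancel₀ h3.ne' h2).symm
  rcases (abs_eq hd.le).1 h4 with h | h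
  · exact Or.inl fun t => by rw [lin, h]
  · exact Or.inr fun t => by rw [lin, h]; ring

end

/-- A bijection `ℤ × J → ℤ` cannot be uniformly Lipschitz along a progression when `J` is
infinite. -/
theorem count {J : Type} [Infinite J] (ρ : ℤ × J → ℤ) (hρ : Function.Bijective ρ) {s L : ℤ}
    (hs : 0 < s) (h : ∀ k j k' j' t, ρ (k', j') = ρ (k, j) + s →
      |ρ (k' + t, j') - ρ (k + t, j)| ≤ L) : False := by
  have h1 : ∀ (n : ℕ) k j k' j', ρ (k', j') = ρ (k, j) + s * n →
      ∀ t, |ρ (k' + t, j') - ρ (k + t, j)| ≤ L * n := by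
    intro n
    induction n with
    | zero =>
      intro k j k' j' e t
      rw [Nat.cast_zero, mul_zero, add_zero] at e
      obtain ⟨rfl, rfl⟩ := Prod.ext_iff.1 (hρ.1 e)
      simp
    | succ n ih =>
      intro k j k' j' e t
      obtain ⟨⟨k1, j1⟩, e1⟩ := hρ.2 (ρ (k, j) + s * n)
      have a1 := ih k j k1 j1 e1 t
      have a2 := h k1 j1 k' j' t (by rw [e, e1]; push_cast; ring)
      have a3 := abs_sub_le (ρ (k' + t, j')) (ρ (k1 + t, j1)) (ρ (k + t, j))
      push_cast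
      linarith
  have h2 : ∀ k j k' j', ρ (k, j) % s = ρ (k', j') % s →
      ∃ D : ℕ, ∀ t, |ρ (k' + t, j') - ρ (k + t, j)| ≤ D := by
    intro k j k' j' e
    obtain ⟨c, hc⟩ := Int.ModEq.dvd e
    obtain ⟨n, rfl | rfl⟩ := c.eq_nat_or_neg
    · exact ⟨(L * n).toNat, fun t => (h1 n k j k' j' (by omega) t).trans (Int.self_le_toNat _)⟩
    · refine ⟨(L * n).toNat, fun t => ?_⟩
      rw [abs_sub_comm]
      rw [mul_neg] at hc
      exact (h1 n k' j' k j (by omega) t).trans (Int.self_le_toNat _)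
  have hfin : ∀ z : ℤ, z % s ∈ Finset.Ico 0 s := fun z =>
    Finset.mem_Ico.2 ⟨Int.emod_nonneg _ hs.ne', Int.emod_lt_of_pos _ hs⟩
  obtain ⟨r, hr⟩ := Finite.exists_infinite_fiber
    (fun j : J => (⟨ρ (0, j) % s, hfin _⟩ : Finset.Ico 0 s))
  have hinf : ((fun j : J => (⟨ρ (0, j) % s, hfin _⟩ : Finset.Ico 0 s)) ⁻¹' {r}).Infinite :=
    Set.infinite_coe_iff.1 hr
  obtain ⟨j0, hj0⟩ := hinf.nonempty
  obtain ⟨p, q, hpq, e⟩ := Finite.exists_ne_map_eq_of_infinite
    (fun k : ℤ => (⟨ρ (k, j0) % s, hfin _⟩ : Finset.Ico 0 s))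
  obtain ⟨C, hC⟩ := h2 p j0 q j0 (congrArg Subtype.val e)
  have h3 : ∀ t : ℕ, |ρ (p + (q - p) * t, j0) - ρ (p, j0)| ≤ C * t := by
    intro t
    induction t with
    | zero => simp
    | succ t ih =>
      have a1 := hC ((q - p) * t)
      have a3 := abs_sub_le (ρ (q + (q - p) * t, j0)) (ρ (p + (q - p) * t, j0)) (ρ (p, j0))
      rw [show p + (q - p) * ((t + 1 : ℕ) : ℤ) = q + (q - p) * t by push_cast; ring]
      push_cast
      linarith
  obtain ⟨M, hM, hcard⟩ := hinf.exists_subset_card_eq (2 * C + 1)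
  have h4 : ∀ j : J, ∃ D : ℕ, j ∈ M → ∀ t, |ρ (t, j) - ρ (t, j0)| ≤ D := fun j => by
    by_cases hj : j ∈ M
    · have e1 : ρ (0, j0) % s = ρ (0, j) % s :=
        congrArg Subtype.val ((Set.mem_singleton_iff.1 hj0).trans
          (Set.mem_singleton_iff.1 (hM hj)).symm)
      obtain ⟨D, hD⟩ := h2 0 j0 0 j e1
      exact ⟨D, fun _ t => by simpa using hD t⟩
    · exact ⟨0, fun h => absurd h hj⟩
  choose D hD using h4
  set L0 := M.sup D with hL0
  set T := 2 * L0 + 2 with hT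
  have hle : (Finset.range T ×ˢ M).card ≤
      (Finset.Icc (ρ (p, j0) - (C * T + L0 : ℕ)) (ρ (p, j0) + (C * T + L0 : ℕ))).card := by
    refine Finset.card_le_card_of_injOn (fun z => ρ (p + (q - p) * z.1, z.2)) (fun z hz => ?_)
      fun z _ z' _ e => ?_
    · rw [Finset.coe_product] at hz
      have a1 := h3 z.1
      have a2 := hD z.2 hz.2 (p + (q - p) * z.1)
      have a3 : (D z.2 : ℤ) ≤ L0 := by exact_mod_cast Finset.le_sup (f := D) hz.2
      have a4 : (C : ℤ) * z.1 ≤ C * T := by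
        exact_mod_cast Nat.mul_le_mul_left C (Finset.mem_range.1 hz.1).le
      rw [abs_le] at a1 a2
      rw [Finset.mem_coe, Finset.mem_Icc]
      push_cast
      constructor <;> linarith
    · obtain ⟨e1, e2⟩ := Prod.ext_iff.1 (hρ.1 e)
      refine Prod.ext ?_ e2
      exact_mod_cast mul_left_cancel₀ (sub_ne_zero.2 hpq.symm) (add_left_cancel e1)
  rw [Finset.card_product, Finset.card_range, hcard, Int.card_Icc] at hle
  have : T * (2 * C + 1) = 2 * (C * T) + T := by ring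
  omega

end Pool.Agent.P.MP_909498_an
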