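import Pool.Agent.P.MP_909498_an.Wold
import Pool.Agent.P.MP_909498_an.Harm

/-!
Orderings by the integers of families with infinitely many generators.
-/

open scoped InnerProductSpace ComplexConjugate
open Filter Topology

namespace Pool.Agent.P.MP_909498_an

variable {H : Type} [NormedAddCommGroup H] [InnerProductSpace ℂ H]

theorem IsFrameSeq.comp {ι κ : Type} {f : ι → H} (hf : IsFrameSeq f) (σ : κ ≃ ι) :
    IsFrameSeq (f ∘ σ) := by
  obtain ⟨A, B, hA, hB, h⟩ := hf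
  refine ⟨A, B, hA, hB, fun g hg => ?_⟩
  rw [σ.surjective.range_comp] at hg
  have e := σ.tsum_eq fun k => ‖⟪f k, g⟫_ℂ‖ ^ 2
  simp only [Function.comp_apply]
  rw [e]
  exact ⟨(σ.summable_iff (f := fun k => ‖⟪f k, g⟫_ℂ‖ ^ 2)).2 (h g hg).1, (h g hg).2⟩

theorem IsRieszSeq.of_comp {ι κ : Type} {f : ι → H} (σ : κ ≃ ι) (hf : IsRieszSeq (f ∘ σ)) :
    IsRieszSeq f := by
  obtain ⟨A, B, hA, hB, h⟩ := hf
  refine ⟨A, B, hA, hB, fun s c => ?_⟩
  have := h (s.map σ.symm.toEmbedding) (c ∘ σ)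
  simpa using this

theorem finite_level {ι : Type} [DecidableEq ι] (N : Submodule ℂ (L2 ι))
    [N.HasOrthogonalProjection] (k : ι) {δ : ℝ} (hδ : 0 < δ) :
    {n | δ ≤ ‖qq N k n‖}.Finite := by
  have h := (summable_qq N k).tendsto_cofinite_zero.eventually
    (gt_mem_nhds (show (0 : ℝ) < δ ^ 2 by positivity))
  refine (eventually_cofinite.1 h).subset fun n hn => ?_
  have hn' : δ ≤ ‖qq N n k‖ := by
    rw [← qq_conj, Complex.norm_conj]
    exact hn
  exact not_lt.2 (pow_le_pow_left₀ hδ.le hn' 2)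

/-- The matrix of the projection is a Toeplitz matrix with a nonzero entry off the diagonal. -/
theorem exists_off {f : ℤ → H} {U : L2 ℤ →L[ℂ] H} (hU : IsSyn f U) (hf : f 0 ≠ 0)
    (hN : ∃ x ∈ U.ker, x ≠ 0) (hd : ∀ j k, dd U.ker j = dd U.ker k)
    (hq : ∀ j k, qq U.ker j k = qq U.ker 0 (k - j)) : ∃ n, n ≠ 0 ∧ 0 < ‖qq U.ker 0 n‖ := by
  by_contra hc
  push Not at hc
  have h0 : U (eb 0) = 0 := diag_trivial (N := U.ker) (fun j k hjk => by
    rw [hq]
    exact norm_le_zero_iff.1 (hc _ (sub_ne_zero.2 hjk.symm))) hd hN 0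
  exact hf ((hU 0).symm.trans h0)

theorem bilateral [CompleteSpace H] {J : Type} [Infinite J] {f : ℤ × J → H}
    (hg : ∀ k j k' j' t, ⟪f (k + t, j), f (k' + t, j')⟫_ℂ = ⟪f (k, j), f (k', j')⟫_ℂ)
    {c : ℝ} (hc : 0 < c) (hcf : ∀ p, c ≤ ‖f p‖) (hf : IsFrameSeq f) (hR : ¬IsRieszSeq f)
    (σ : ℤ ≃ ℤ × J) : ¬BddRep (f ∘ σ) (· + 1) := by
  intro hV
  obtain ⟨U, A, hA, hU, hl⟩ := exists_syn (hf.comp σ)
  have hN := hU.ker_ne hA hl fun h => hR (h.of_comp σ)
  obtain ⟨S, hS, h1, h2⟩ := exists_shifts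
  have hp := hU.pres_of_rep (hS 1) hV
  have hlow : ∀ k, c / (‖U‖ + 1) ≤ dd U.ker k := fun k => by
    have e : U (eb k - U.ker.starProjection (eb k)) = f (σ k) := by
      have h0 : U (U.ker.starProjection (eb k)) = 0 := U.ker.starProjection_apply_mem _
      rw [map_sub, h0, sub_zero, hU]
      rfl
    have h3 := U.le_opNorm (eb k - U.ker.starProjection (eb k))
    rw [e] at h3
    have h4 := hcf (σ k)
    have h5 : 0 ≤ dd U.ker k := norm_nonneg _
    rw [div_le_iff₀ (by positivity)]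
    unfold dd at *
    nlinarith
  have hm := wold h1 h2 hp (by positivity) hlow
  have hall : ∀ t, ∀ x ∈ U.ker, S t x ∈ U.ker := fun t x hx => by
    induction t with
    | zero =>
      have : S 0 x = x := lp.ext (funext fun i => by rw [h1, sub_zero])
      rwa [this]
    | succ n ih =>
      have := hp _ ih
      rwa [h2, add_comm] at this
    | pred n ih =>
      have := hm _ ih
      rwa [h2, add_comm, ← sub_eq_add_neg] at this
  have hd : ∀ j k, dd U.ker j = dd U.ker k := fun j k =>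
    le_antisymm (by simpa using (hS (j - k)).dd_le (hall _) k)
      (by simpa using (hS (k - j)).dd_le (hall _) j)
  have hq : ∀ j k, qq U.ker j k = qq U.ker 0 (k - j) := fun j k => by
    simpa using (hS j).qq_rel (hall _) (fun _ => hd _ _) 0 (k - j)
  have hf0 : (f ∘ σ) 0 ≠ 0 := norm_pos_iff.1 (hc.trans_le (hcf _))
  obtain ⟨n, hn, hn'⟩ := exists_off hU hf0 hN hd hq
  have hsym : ∀ n, ‖qq U.ker 0 (-n)‖ = ‖qq U.ker 0 n‖ := fun n => by
    rw [← qq_conj U.ker n 0, Complex.norm_conj, hq n 0, zero_sub]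
  have hs : 0 < ‖qq U.ker 0 |n|‖ := by
    rcases abs_choice n with e | e <;> rw [e]
    · exact hn'
    · rwa [hsym]
  obtain ⟨L, hL⟩ := (finite_level U.ker 0 hs).bddAbove
  refine count σ.symm σ.symm.bijective (s := |n|) (L := L) (abs_pos.2 hn) fun k j k' j' t e => ?_
  let β : ℤ ≃ ℤ := σ.trans (((Equiv.addRight t).prodCongr (Equiv.refl J)).trans σ.symm)
  have hβ : ∀ k j, β (σ.symm (k, j)) = σ.symm (k + t, j) := fun k j => by simp [β]
  have h3 := (hU.gram_qq β fun a b => by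
    obtain ⟨⟨a1, a2⟩, rfl⟩ := σ.symm.surjective a
    obtain ⟨⟨b1, b2⟩, rfl⟩ := σ.symm.surjective b
    simp only [hβ, Function.comp_apply, Equiv.apply_symm_apply, hg]).2
    (σ.symm (k, j)) (σ.symm (k', j'))
  rw [hβ, hβ, hq, hq (σ.symm (k, j)), e, add_sub_cancel_left] at h3
  refine hL ?_
  change ‖qq U.ker 0 |n|‖ ≤ _
  rcases abs_choice (σ.symm (k' + t, j') - σ.symm (k + t, j)) with e' | e' <;> rw [e']
  · rw [h3]
  · rw [hsym, h3]

end Pool.Agent.P.MP_909498_an
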