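import Pool.Agent.P.MP_909498_an.Bilateral

/-!
The injective index maps represented by a bounded operator, for a stationary overcomplete frame
sequence.
-/

open scoped InnerProductSpace ComplexConjugate
open Filter Topology

namespace Pool.Agent.P.MP_909498_an

variable {H : Type} [NormedAddCommGroup H] [InnerProductSpace ℂ H]

theorem hit_of_affine {τ : ℤ → ℤ} {d : ℤ}
    (h : ∀ x, (∀ t, τ (x + d * t) = τ x + d * t) ∨ ∀ t, τ (x + d * t) = τ x - d * t)
    {x y : ℤ} (hy : d ∣ y - τ x) : ∃ t, τ (x + d * t) = y := by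
  obtain ⟨m, hm⟩ := hy
  rcases h x with h | h
  · exact ⟨m, by rw [h]; omega⟩
  · exact ⟨-m, by rw [h, mul_neg]; omega⟩

theorem dvd_of_affine {τ : ℤ → ℤ} (hτ : Function.Injective τ) {d : ℤ}
    (h : ∀ x, (∀ t, τ (x + d * t) = τ x + d * t) ∨ ∀ t, τ (x + d * t) = τ x - d * t)
    {x y : ℤ} (hy : d ∣ τ y - τ x) : d ∣ y - x := by
  obtain ⟨t, ht⟩ := hit_of_affine h hy
  exact ⟨t, by rw [← hτ ht]; ring⟩

theorem surj_of_affine {τ : ℤ → ℤ} (hτ : Function.Injective τ) {d : ℕ} (hd : 0 < d)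
    (h : ∀ x, (∀ t, τ (x + d * t) = τ x + d * t) ∨ ∀ t, τ (x + d * t) = τ x - d * t) :
    Function.Surjective τ := by
  have : NeZero d := ⟨hd.ne'⟩
  have hi : Function.Injective fun r : ZMod d => ((τ (r.cast : ℤ) : ℤ) : ZMod d) := by
    intro r r' e
    have h1 := dvd_of_affine hτ h ((ZMod.intCast_eq_intCast_iff_dvd_sub _ _ _).1 e)
    have h2 := (ZMod.intCast_eq_intCast_iff_dvd_sub _ _ _).2 h1
    simpa using h2
  intro y
  obtain ⟨r, hr⟩ := Finite.surjective_of_injective hi (y : ZMod d)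
  obtain ⟨t, ht⟩ := hit_of_affine h ((ZMod.intCast_eq_intCast_iff_dvd_sub _ _ _).1 hr)
  exact ⟨_, ht⟩

theorem classify [CompleteSpace H] {f : ℤ → H}
    (hg : ∀ j k t, ⟪f (j + t), f (k + t)⟫_ℂ = ⟪f j, f k⟫_ℂ) (hf0 : f 0 ≠ 0)
    (hf : IsFrameSeq f) (hR : ¬IsRieszSeq f) :
    ∃ d : ℕ, 0 < d ∧ ∀ τ : ℤ → ℤ, Function.Injective τ → (BddRep f τ ↔ ∀ k,
      (∀ t, τ (k + d * t) = τ k + d * t) ∨
        (BddRep f (fun n => -n) ∧ ∀ t, τ (k + d * t) = τ k - d * t)) := by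
  obtain ⟨U, A, hA, hU, hl⟩ := exists_syn hf
  have hN := hU.ker_ne hA hl hR
  have hsh := fun t : ℤ => hU.gram_qq (Equiv.addRight t) fun j k => hg j k t
  have hd : ∀ j k, dd U.ker j = dd U.ker k := fun j k => by simpa using (hsh (j - k)).1 k
  have hq : ∀ j k, qq U.ker j k = qq U.ker 0 (k - j) := fun j k => by
    simpa using (hsh j).2 0 (k - j)
  obtain ⟨n0, hn0⟩ := exists_off hU hf0 hN hd hq
  have hsym : ∀ n, ‖qq U.ker 0 (-n)‖ = ‖qq U.ker 0 n‖ := fun n => by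
    rw [← qq_conj U.ker n 0, Complex.norm_conj, hq n 0, zero_sub]
  obtain ⟨a, ha⟩ := Int.subgroup_cyclic (AddSubgroup.closure {n | n ≠ 0 ∧ 0 < ‖qq U.ker 0 n‖})
  have hG : AddSubgroup.closure {n | n ≠ 0 ∧ 0 < ‖qq U.ker 0 n‖} =
      AddSubgroup.zmultiples (a.natAbs : ℤ) := by
    rw [ha, ← AddSubgroup.zmultiples_eq_closure, Int.zmultiples_natAbs]
  have hdv : ∀ n, ¬(a.natAbs : ℤ) ∣ n → qq U.ker 0 n = 0 := fun n hn => by
    by_contra hc
    refine hn (Int.mem_zmultiples_iff.1 (hG ▸ AddSubgroup.subset_closure ⟨?_, norm_pos_iff.2 hc⟩))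
    rintro rfl
    exact hn (dvd_zero _)
  have hpos : 0 < a.natAbs := Nat.pos_of_ne_zero fun e => by
    have h1 := hdv n0 (by
      rw [e]
      simpa using hn0.1)
    have h2 := hn0.2
    rw [h1, norm_zero] at h2
    exact lt_irrefl _ h2
  have key : ∀ τ : ℤ → ℤ, Function.Injective τ → BddRep f τ →
      ∀ j k, qq U.ker 0 (τ k - τ j) = qq U.ker 0 (k - j) := fun τ hτ h j k => by
    obtain ⟨W, hW⟩ := exists_isW hτ (u := fun _ => 1) fun _ => norm_one
    have := hW.qq_rel (hU.pres_of_rep hW h) (fun _ => hd _ _) j k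
    rwa [one_mul, one_mul, hq, hq j] at this
  have back : ∀ τ : ℤ → ℤ, Function.Bijective τ →
      (∀ j k, qq U.ker 0 (τ k - τ j) = qq U.ker 0 (k - j)) → BddRep f τ := fun τ hτ h => by
    obtain ⟨W, hW⟩ := exists_isW hτ.1 (u := fun _ => 1) fun _ => norm_one
    refine hU.rep_of_pres hA hl hW (hW.pres hτ.2 fun j k => ?_)
    rw [hq, hq j, h]
  refine ⟨a.natAbs, hpos, fun τ hτ => ⟨fun h k => ?_, fun h => ?_⟩⟩
  · have h1 := key τ hτ h
    rcases affine (a := fun n => ‖qq U.ker 0 n‖) (fun δ hδ => finite_level U.ker 0 hδ) hsym hτ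
      (fun j k => by rw [h1]) (Int.natCast_pos.2 hpos) hG k with h2 | h2
    · exact Or.inl h2
    · refine Or.inr ⟨back _ neg_involutive.bijective fun i j => ?_, h2⟩
      by_cases hij : (a.natAbs : ℤ) ∣ j - i
      · obtain ⟨t, ht⟩ := hij
        have h3 := h1 k (k + a.natAbs * t)
        rw [h2, add_sub_cancel_left, ← ht] at h3
        rw [← h3]
        congr 1
        ring
      · rw [hdv _ hij, hdv _ fun e => hij ?_]
        rwa [neg_sub_neg, dvd_sub_comm] at e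
  · have h' : ∀ x, (∀ t, τ (x + a.natAbs * t) = τ x + a.natAbs * t) ∨
        ∀ t, τ (x + a.natAbs * t) = τ x - a.natAbs * t := fun x => (h x).imp id And.right
    refine back τ ⟨hτ, surj_of_affine hτ hpos h'⟩ fun j k => ?_
    by_cases hjk : (a.natAbs : ℤ) ∣ k - j
    · obtain ⟨t, ht⟩ := hjk
      have e : k = j + a.natAbs * t := by omega
      rcases h j with h2 | ⟨h2, h3⟩
      · rw [e, h2, add_sub_cancel_left, add_sub_cancel_left]
      · have h4 := key _ neg_injective h2 j k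
        rw [← h4, e, h3]
        congr 1
        ring
    · rw [hdv _ hjk, hdv _ fun e => hjk (dvd_of_affine hτ h' e)]

end Pool.Agent.P.MP_909498_an
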