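import Pool.Agent.P.MP_909498_an.Defs

/-!
Weighted shifts on `ℓ²` and the orthogonal projection onto an invariant subspace.
-/

open scoped InnerProductSpace ComplexConjugate
open Filter Topology

namespace Pool.Agent.P.MP_909498_an

variable {ι : Type} [DecidableEq ι]

abbrev L2 (ι : Type) : Type := lp (fun _ : ι => ℂ) 2

/-- The standard basis. -/
noncomputable def eb (k : ι) : L2 ι := lp.single 2 k 1

theorem inner_eb (k : ι) (x : L2 ι) : ⟪eb k, x⟫_ℂ = x k := by
  rw [eb, lp.inner_single_left]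
  simp

theorem eb_apply (k j : ι) : eb k j = if j = k then 1 else 0 := by
  rw [eb, lp.single_apply, Pi.single_apply]

theorem hasSum_eb (x : L2 ι) : HasSum (fun k => x k • eb k) x := by
  have h := lp.hasSum_single (p := 2) (by simp) x
  have e : (fun k => x k • eb k) = fun k => lp.single 2 k (x k) := by
    funext k
    rw [eb, ← lp.single_smul, smul_eq_mul, mul_one]
  rw [e]
  exact h

theorem orthonormal_eb : Orthonormal ℂ (eb : ι → L2 ι) := by
  rw [orthonormal_iff_ite]
  intro i j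
  rw [inner_eb, eb_apply]

theorem hasSum_map {E : Type} [NormedAddCommGroup E] [NormedSpace ℂ E] (T : L2 ι →L[ℂ] E)
    (x : L2 ι) : HasSum (fun k => x k • T (eb k)) (T x) := by
  have h := T.hasSum (hasSum_eb x)
  simpa only [map_smul] using h

theorem ext_eb {E : Type} [NormedAddCommGroup E] [NormedSpace ℂ E] {T T' : L2 ι →L[ℂ] E}
    (h : ∀ k, T (eb k) = T' (eb k)) (x : L2 ι) : T x = T' x := by
  refine (hasSum_map T x).unique ?_
  simp only [h]
  exact hasSum_map T' x

theorem conj_mul_self {u : ℂ} (hu : ‖u‖ = 1) : conj u * u = 1 := by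
  rw [Complex.conj_mul', hu]
  simp

/-- `W` is the weighted shift along `τ` with weights `u`. -/
def IsW (W : L2 ι →ₗᵢ[ℂ] L2 ι) (τ : ι → ι) (u : ι → ℂ) : Prop :=
  (∀ k, ‖u k‖ = 1) ∧ ∀ k, W (eb k) = u k • eb (τ k)

theorem exists_isW {τ : ι → ι} (hτ : Function.Injective τ) {u : ι → ℂ} (hu : ∀ k, ‖u k‖ = 1) :
    ∃ W : L2 ι →ₗᵢ[ℂ] L2 ι, IsW W τ u := by
  have ho : Orthonormal ℂ fun k => u k • eb (τ k) := by
    rw [orthonormal_iff_ite]
    intro i j
    rw [inner_smul_left, inner_smul_right, inner_eb, eb_apply]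
    by_cases h : i = j
    · subst h
      rw [if_pos rfl, if_pos rfl, mul_one, conj_mul_self (hu i)]
    · rw [if_neg h, if_neg fun e => h (hτ e), mul_zero, mul_zero]
  refine ⟨ho.orthogonalFamily.linearIsometry, hu, fun k => ?_⟩
  rw [eb, OrthogonalFamily.linearIsometry_apply_single, LinearIsometry.toSpanSingleton_apply,
    one_smul]

theorem IsW.apply {W : L2 ι →ₗᵢ[ℂ] L2 ι} {τ : ι → ι} {u : ι → ℂ} (h : IsW W τ u) (x : L2 ι)
    (k : ι) : W x (τ k) = u k * x k := by
  have e := W.inner_map_map (eb k) x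
  rw [h.2, inner_smul_left, inner_eb, inner_eb] at e
  rw [← e, ← mul_assoc, mul_comm (u k), conj_mul_self (h.1 k), one_mul]

theorem IsW.apply_out {W : L2 ι →ₗᵢ[ℂ] L2 ι} {τ : ι → ι} {u : ι → ℂ} (h : IsW W τ u) (x : L2 ι)
    {i : ι} (hi : ∀ k, τ k ≠ i) : W x i = 0 := by
  rw [← inner_eb]
  refine ext_eb (T := (innerSL ℂ (eb i)).comp W.toContinuousLinearMap) (T' := 0) (fun k => ?_) x
  change ⟪eb i, W (eb k)⟫_ℂ = 0
  rw [h.2, inner_smul_right, inner_eb, eb_apply, if_neg (hi k).symm, mul_zero]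

section

variable (N : Submodule ℂ (L2 ι)) [N.HasOrthogonalProjection]

omit [DecidableEq ι] in
theorem pyth (y : L2 ι) {v : L2 ι} (hv : v ∈ N) :
    ‖y - v‖ ^ 2 = ‖y - N.starProjection y‖ ^ 2 + ‖N.starProjection y - v‖ ^ 2 := by
  have h := norm_add_sq_eq_norm_sq_add_norm_sq_of_inner_eq_zero (𝕜 := ℂ) (y - N.starProjection y)
    (N.starProjection y - v)
    (N.starProjection_inner_eq_zero y _ (N.sub_mem (N.starProjection_apply_mem y) hv))
  rw [sub_add_sub_cancel] at h
  rw [sq, sq, sq, h]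

/-- The distance from a basis vector to `N`. -/
noncomputable def dd (k : ι) : ℝ := ‖eb k - N.starProjection (eb k)‖

/-- The matrix of the projection onto `N`. -/
noncomputable def qq (j k : ι) : ℂ := N.starProjection (eb k) j

theorem qq_conj (j k : ι) : conj (qq N j k) = qq N k j := by
  rw [qq, qq, ← inner_eb, ← inner_eb, inner_conj_symm, N.inner_starProjection_left_eq_right]

theorem summable_qq (k : ι) : Summable fun j => ‖qq N j k‖ ^ 2 := by
  have h := (lp.hasSum_norm (p := 2) (by simp) (N.starProjection (eb k))).summable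
  simpa [qq] using h

variable {N}

theorem IsW.dist {W : L2 ι →ₗᵢ[ℂ] L2 ι} {τ : ι → ι} {u : ι → ℂ} (h : IsW W τ u) (k : ι) :
    ‖W (eb k) - N.starProjection (W (eb k))‖ = dd N (τ k) := by
  rw [h.2, map_smul, ← smul_sub, norm_smul, h.1, one_mul, dd]

theorem IsW.dd_le {W : L2 ι →ₗᵢ[ℂ] L2 ι} {τ : ι → ι} {u : ι → ℂ} (h : IsW W τ u)
    (hN : ∀ x ∈ N, W x ∈ N) (k : ι) : dd N (τ k) ≤ dd N k := by
  have e := pyth N (W (eb k)) (hN _ (N.starProjection_apply_mem (eb k)))
  rw [h.dist, ← map_sub, W.norm_map] at e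
  have h0 : 0 ≤ dd N k := norm_nonneg _
  refine (sq_le_sq₀ (norm_nonneg _) h0).1 ?_
  change dd N (τ k) ^ 2 ≤ dd N k ^ 2
  have := sq_nonneg ‖N.starProjection (W (eb k)) - W (N.starProjection (eb k))‖
  unfold dd at *
  linarith

theorem IsW.comm {W : L2 ι →ₗᵢ[ℂ] L2 ι} {τ : ι → ι} {u : ι → ℂ} (h : IsW W τ u)
    (hN : ∀ x ∈ N, W x ∈ N) (hd : ∀ k, dd N (τ k) = dd N k) (k : ι) :
    N.starProjection (W (eb k)) = W (N.starProjection (eb k)) := by
  have e := pyth N (W (eb k)) (hN _ (N.starProjection_apply_mem (eb k)))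
  rw [h.dist, ← map_sub, W.norm_map, hd] at e
  have : ‖N.starProjection (W (eb k)) - W (N.starProjection (eb k))‖ ^ 2 = 0 := by
    unfold dd at e
    linarith
  exact sub_eq_zero.1 (norm_eq_zero.1 (pow_eq_zero_iff two_ne_zero |>.1 this))

theorem IsW.qq_rel {W : L2 ι →ₗᵢ[ℂ] L2 ι} {τ : ι → ι} {u : ι → ℂ} (h : IsW W τ u)
    (hN : ∀ x ∈ N, W x ∈ N) (hd : ∀ k, dd N (τ k) = dd N k) (j k : ι) :
    u k * qq N (τ j) (τ k) = u j * qq N j k := by
  have e := congrArg (fun x : L2 ι => x (τ j)) (h.comm hN hd k)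
  simp only [h.apply] at e
  rw [h.2, map_smul] at e
  exact e

theorem IsW.qq_out {W : L2 ι →ₗᵢ[ℂ] L2 ι} {τ : ι → ι} {u : ι → ℂ} (h : IsW W τ u)
    (hN : ∀ x ∈ N, W x ∈ N) (hd : ∀ k, dd N (τ k) = dd N k) {i : ι} (hi : ∀ k, τ k ≠ i) (k : ι) :
    qq N i (τ k) = 0 := by
  have e := congrArg (fun x : L2 ι => x i) (h.comm hN hd k)
  simp only [h.apply_out _ hi] at e
  rw [h.2, map_smul] at e
  have e' : u k * qq N i (τ k) = 0 := e
  refine (mul_eq_zero.1 e').resolve_left fun h0 => ?_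
  have := h.1 k
  rw [h0, norm_zero] at this
  exact zero_ne_one this

theorem IsW.pres {W : L2 ι →ₗᵢ[ℂ] L2 ι} {τ : ι → ι} {u : ι → ℂ} (h : IsW W τ u)
    (hτ : Function.Surjective τ) (hq : ∀ j k, u k * qq N (τ j) (τ k) = u j * qq N j k) :
    ∀ x ∈ N, W x ∈ N := by
  intro x hx
  have e := ext_eb (T := N.starProjection.comp W.toContinuousLinearMap)
    (T' := W.toContinuousLinearMap.comp N.starProjection) (fun k => by
      refine lp.ext (funext fun i => ?_)
      obtain ⟨j, rfl⟩ := hτ i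
      change N.starProjection (W (eb k)) (τ j) = W (N.starProjection (eb k)) (τ j)
      rw [h.apply, h.2, map_smul]
      exact hq j k) x
  change N.starProjection (W x) = W (N.starProjection x) at e
  rw [Submodule.starProjection_eq_self_iff.2 hx] at e
  exact Submodule.starProjection_eq_self_iff.1 e

/-- If the matrix of the projection is diagonal and the distances agree, then `N` is trivial or
contains the basis vectors. -/
theorem diag_trivial (hq : ∀ j k, j ≠ k → qq N j k = 0) (hd : ∀ j k, dd N j = dd N k)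
    (hN : ∃ x ∈ N, x ≠ 0) (k : ι) : eb k ∈ N := by
  have hQ : ∀ k, N.starProjection (eb k) = qq N k k • eb k := fun k =>
    lp.ext (funext fun j => by
      change qq N j k = qq N k k * eb k j
      rw [eb_apply]
      by_cases h : j = k
      · rw [if_pos h, h, mul_one]
      · rw [if_neg h, hq j k h, mul_zero])
  obtain ⟨x, hx, hx0⟩ := hN
  have hex : ∃ j, qq N j j ≠ 0 := by
    by_contra hc
    push Not at hc
    have e := ext_eb (T := N.starProjection) (T' := 0) (fun k => by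
      rw [hQ, hc, zero_smul]
      rfl) x
    rw [Submodule.starProjection_eq_self_iff.2 hx] at e
    exact hx0 e
  obtain ⟨j, hj⟩ := hex
  have hjN : eb j ∈ N := by
    have := N.smul_mem (qq N j j)⁻¹ (N.starProjection_apply_mem (eb j))
    rwa [hQ, smul_smul, inv_mul_cancel₀ hj, one_smul] at this
  have h0 : dd N k = 0 := by
    rw [hd k j, dd, Submodule.starProjection_eq_self_iff.2 hjN, sub_self, norm_zero]
  exact Submodule.starProjection_eq_self_iff.1 (sub_eq_zero.1 (norm_eq_zero.1 h0)).symm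

end

end Pool.Agent.P.MP_909498_an
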