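import Mathlib

/-!
Frame sequences, Riesz sequences, the kernel of the synthesis operator and operator
representations of families of vectors in a complex Hilbert space.
-/

open scoped InnerProductSpace

namespace Pool.Agent.P.MP_909498_an

variable {H : Type} [NormedAddCommGroup H] [InnerProductSpace ℂ H] {ι : Type}

/-- `f` is a frame for its closed linear span. -/
def IsFrameSeq (f : ι → H) : Prop :=
  ∃ A B : ℝ, 0 < A ∧ 0 < B ∧ ∀ g ∈ (Submodule.span ℂ (Set.range f)).topologicalClosure,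
    Summable (fun k => ‖⟪f k, g⟫_ℂ‖ ^ 2) ∧ A * ‖g‖ ^ 2 ≤ ∑' k, ‖⟪f k, g⟫_ℂ‖ ^ 2 ∧
      ∑' k, ‖⟪f k, g⟫_ℂ‖ ^ 2 ≤ B * ‖g‖ ^ 2

/-- `f` is a Riesz basis for its closed linear span. -/
def IsRieszSeq (f : ι → H) : Prop :=
  ∃ A B : ℝ, 0 < A ∧ 0 < B ∧ ∀ (s : Finset ι) (c : ι → ℂ),
    A * ∑ k ∈ s, ‖c k‖ ^ 2 ≤ ‖∑ k ∈ s, c k • f k‖ ^ 2 ∧
      ‖∑ k ∈ s, c k • f k‖ ^ 2 ≤ B * ∑ k ∈ s, ‖c k‖ ^ 2

/-- The kernel of the synthesis operator: square summable `c` with `∑ c k • f k = 0`. -/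
def synthKer (f : ι → H) : Set (ι → ℂ) :=
  {c | Summable (fun k => ‖c k‖ ^ 2) ∧ HasSum (fun k => c k • f k) 0}

/-- A bounded linear operator on the span of `f` sends `f k` to `f (τ k)` for every `k`. -/
def BddRep (f : ι → H) (τ : ι → ι) : Prop :=
  ∃ V : Submodule.span ℂ (Set.range f) →L[ℂ] H,
    ∀ k, V ⟨f k, Submodule.subset_span ⟨k, rfl⟩⟩ = f (τ k)

end Pool.Agent.P.MP_909498_an
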