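import Pool.Agent.P.MP_909498_an.Classify

/-!
Classification of the injective index maps `τ` for which `U ^ k φ ↦ U ^ (τ k) φ` is bounded, for an
overcomplete frame sequence `U ^ k φ` with `U` unitary.
-/

open scoped InnerProductSpace

namespace Pool.Agent.P.MP_909498_an.OldReindexing

open Pool.Agent.P.MP_909498_an

theorem result {H : Type} [NormedAddCommGroup H] [InnerProductSpace ℂ H] [CompleteSpace H]
    (U : H ≃ₗᵢ[ℂ] H) (φ : H) (hφ : φ ≠ 0) (hf : IsFrameSeq fun k : ℤ => (U ^ k) φ)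
    (hR : ¬IsRieszSeq fun k : ℤ => (U ^ k) φ) :
    ∃ d : ℕ, 0 < d ∧ ∀ τ : ℤ → ℤ, Function.Injective τ →
      (BddRep (fun k : ℤ => (U ^ k) φ) τ ↔ ∀ k : ℤ,
        (∀ t : ℤ, τ (k + d * t) = τ k + d * t) ∨
          (BddRep (fun k : ℤ => (U ^ k) φ) (fun n => -n) ∧
            ∀ t : ℤ, τ (k + d * t) = τ k - d * t)) := by
  refine classify (fun j k t => ?_) (by simpa using hφ) hf hR
  simp only [add_comm _ t, zpow_add, LinearIsometryEquiv.coe_mul, Function.comp_apply,
    LinearIsometryEquiv.inner_map_map]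

end Pool.Agent.P.MP_909498_an.OldReindexing
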