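import Pool.Agent.P.MP_909498_an.Core

/-!
The synthesis operator of a frame sequence.
-/

open scoped InnerProductSpace ComplexConjugate
open Filter Topology

namespace Pool.Agent.P.MP_909498_an

variable {ι : Type} [DecidableEq ι] {H : Type} [NormedAddCommGroup H] [InnerProductSpace ℂ H]

omit [DecidableEq ι] in
theorem hasSum_sq (x : L2 ι) : HasSum (fun k => ‖x k‖ ^ 2) (‖x‖ ^ 2) := by
  have h := lp.hasSum_norm (p := 2) (by simp) x
  simpa using h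

omit [DecidableEq ι] in
theorem memL2 {c : ι → ℂ} (hc : Summable fun k => ‖c k‖ ^ 2) : Memℓp c 2 :=
  memℓp_gen (by simpa using hc)

/-- `U` is the synthesis operator of `f`. -/
def IsSyn (f : ι → H) (U : L2 ι →L[ℂ] H) : Prop := ∀ k, U (eb k) = f k

instance (U : L2 ι →L[ℂ] H) : U.ker.HasOrthogonalProjection :=
  haveI : CompleteSpace U.ker := U.isClosed_ker.completeSpace_coe
  inferInstance

theorem exists_syn [CompleteSpace H] {f : ι → H} (hf : IsFrameSeq f) :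
    ∃ (U : L2 ι →L[ℂ] H) (A : ℝ), 0 < A ∧ IsSyn f U ∧
      ∀ x, A * ‖x - U.ker.starProjection x‖ ^ 2 ≤ ‖U x‖ ^ 2 := by
  obtain ⟨A, B, hA, hB, h⟩ := hf
  set K := (Submodule.span ℂ (Set.range f)).topologicalClosure with hK
  have : CompleteSpace K := (Submodule.isClosed_topologicalClosure _).completeSpace_coe
  have hfK : ∀ k, f k ∈ K := fun k =>
    Submodule.le_topologicalClosure _ (Submodule.subset_span ⟨k, rfl⟩)
  have hin : ∀ k g, ⟪f k, K.starProjection g⟫_ℂ = ⟪f k, g⟫_ℂ := fun k g => by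
    rw [← K.inner_starProjection_left_eq_right, Submodule.starProjection_eq_self_iff.2 (hfK k)]
  have hsum : ∀ g, Summable fun k => ‖⟪f k, g⟫_ℂ‖ ^ 2 := fun g => by
    have := (h _ (K.starProjection_apply_mem g)).1
    simpa only [hin] using this
  let D0 : H →ₗ[ℂ] L2 ι :=
    { toFun := fun g => ⟨fun k => ⟪f k, g⟫_ℂ, memL2 (hsum g)⟩
      map_add' := fun g g' => lp.ext (funext fun k => inner_add_right _ _ _)
      map_smul' := fun c g => lp.ext (funext fun k => inner_smul_right _ _ _) }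
  have hD0 : ∀ g, ‖D0 g‖ ^ 2 = ∑' k, ‖⟪f k, g⟫_ℂ‖ ^ 2 := fun g => (hasSum_sq (D0 g)).tsum_eq.symm
  have hDb : ∀ g, ‖D0 g‖ ≤ √B * ‖g‖ := fun g => by
    have h1 := (h _ (K.starProjection_apply_mem g)).2.2
    simp only [hin] at h1
    have h2 : ‖K.starProjection g‖ ^ 2 ≤ ‖g‖ ^ 2 :=
      pow_le_pow_left₀ (norm_nonneg _) (K.norm_starProjection_apply_le g) 2
    refine (sq_le_sq₀ (norm_nonneg _) (by positivity)).1 ?_
    rw [hD0, mul_pow, Real.sq_sqrt hB.le]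
    exact h1.trans (mul_le_mul_of_nonneg_left h2 hB.le)
  let D : H →L[ℂ] L2 ι := D0.mkContinuous _ hDb
  let U : L2 ι →L[ℂ] H := ContinuousLinearMap.adjoint D
  have hU : IsSyn f U := fun k => ext_inner_right ℂ fun g => by
    rw [ContinuousLinearMap.adjoint_inner_left, inner_eb]
    rfl
  have hlow : ∀ x ∈ U.kerᗮ, A * ‖x‖ ^ 2 ≤ ‖U x‖ ^ 2 := by
    intro x hx
    rw [ContinuousLinearMap.orthogonal_ker, ContinuousLinearMap.adjoint_adjoint] at hx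
    have hc : IsClosed {x : L2 ι | A * ‖x‖ ^ 2 ≤ ‖U x‖ ^ 2} :=
      isClosed_le (by fun_prop) (by fun_prop)
    refine closure_minimal (s := (D.range : Set (L2 ι))) ?_ hc hx
    rintro _ ⟨g0, rfl⟩
    set g := K.starProjection g0 with hg
    have e : D g0 = D g := lp.ext (funext fun k => (hin k g0).symm)
    change A * ‖D g0‖ ^ 2 ≤ ‖U (D g0)‖ ^ 2
    rw [e]
    have h1 : A * ‖g‖ ^ 2 ≤ ‖D g‖ ^ 2 := by
      have := (h _ (K.starProjection_apply_mem g0)).2.1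
      rwa [← hD0] at this
    have h2 : ‖D g‖ ^ 2 ≤ ‖U (D g)‖ * ‖g‖ := by
      have e1 : ⟪U (D g), g⟫_ℂ = ⟪D g, D g⟫_ℂ := ContinuousLinearMap.adjoint_inner_left _ _ _
      have e2 := norm_inner_le_norm (𝕜 := ℂ) (U (D g)) g
      rw [e1, inner_self_eq_norm_sq_to_K] at e2
      simpa using e2
    rcases (norm_nonneg (D g)).eq_or_lt with h0 | h0
    · rw [← h0]
      simp
    · have h3 : (‖D g‖ ^ 2) ^ 2 ≤ (‖U (D g)‖ * ‖g‖) ^ 2 := pow_le_pow_left₀ (by positivity) h2 2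
      have h4 : A * (‖D g‖ ^ 2) ^ 2 ≤ ‖U (D g)‖ ^ 2 * ‖D g‖ ^ 2 := by
        calc A * (‖D g‖ ^ 2) ^ 2 ≤ A * (‖U (D g)‖ * ‖g‖) ^ 2 := mul_le_mul_of_nonneg_left h3 hA.le
          _ = ‖U (D g)‖ ^ 2 * (A * ‖g‖ ^ 2) := by ring
          _ ≤ _ := mul_le_mul_of_nonneg_left h1 (by positivity)
      have h5 : 0 < ‖D g‖ ^ 2 := by positivity
      refine le_of_mul_le_mul_right ?_ h5
      calc A * ‖D g‖ ^ 2 * ‖D g‖ ^ 2 = A * (‖D g‖ ^ 2) ^ 2 := by ring
        _ ≤ _ := h4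
  refine ⟨U, A, hA, hU, fun x => ?_⟩
  have h1 := hlow _ (U.ker.sub_starProjection_mem_orthogonal x)
  have h2 : U (U.ker.starProjection x) = 0 := U.ker.starProjection_apply_mem x
  rwa [map_sub, h2, sub_zero] at h1

theorem norm_sum_eb (s : Finset ι) (c : ι → ℂ) :
    ‖∑ k ∈ s, c k • eb k‖ ^ 2 = ∑ k ∈ s, ‖c k‖ ^ 2 := by
  have h := (orthonormal_eb (ι := ι)).inner_sum c c s
  rw [inner_self_eq_norm_sq_to_K] at h
  simp only [Complex.conj_mul'] at h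
  refine Complex.ofReal_injective ?_
  push_cast
  exact h

theorem IsSyn.map_sum {f : ι → H} {U : L2 ι →L[ℂ] H} (hU : IsSyn f U) (s : Finset ι)
    (c : ι → ℂ) : U (∑ k ∈ s, c k • eb k) = ∑ k ∈ s, c k • f k := by
  rw [_root_.map_sum]
  exact Finset.sum_congr rfl fun k _ => by rw [map_smul, hU k]

theorem IsSyn.ker_ne {f : ι → H} {U : L2 ι →L[ℂ] H} (hU : IsSyn f U) {A : ℝ} (hA : 0 < A)
    (hl : ∀ x, A * ‖x - U.ker.starProjection x‖ ^ 2 ≤ ‖U x‖ ^ 2) (hR : ¬IsRieszSeq f) :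
    ∃ x ∈ U.ker, x ≠ 0 := by
  by_contra hc
  push Not at hc
  refine hR ⟨A, ‖U‖ ^ 2 + 1, hA, by positivity, fun s c => ?_⟩
  rw [← hU.map_sum, ← norm_sum_eb]
  set x := ∑ k ∈ s, c k • eb k
  have h1 := hl x
  rw [hc _ (U.ker.starProjection_apply_mem x), sub_zero] at h1
  refine ⟨h1, ?_⟩
  have h2 : ‖U x‖ ^ 2 ≤ (‖U‖ * ‖x‖) ^ 2 := pow_le_pow_left₀ (norm_nonneg _) (U.le_opNorm x) 2
  have h3 := sq_nonneg ‖x‖
  rw [mul_pow] at h2
  linarith

theorem IsSyn.hasSum {f : ι → H} {U : L2 ι →L[ℂ] H} (hU : IsSyn f U) (x : L2 ι) :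
    HasSum (fun k => x k • f k) (U x) := by
  have h := hasSum_map U x
  simpa only [hU _] using h

theorem IsSyn.mem_synthKer {f : ι → H} {U : L2 ι →L[ℂ] H} (hU : IsSyn f U) (x : L2 ι) :
    (x : ι → ℂ) ∈ synthKer f ↔ x ∈ U.ker := by
  constructor
  · intro h
    exact (hU.hasSum x).unique h.2
  · intro h
    have h0 : U x = 0 := h
    exact ⟨(hasSum_sq x).summable, h0 ▸ hU.hasSum x⟩

/-- A bound on finite sums gives invariance of the kernel. -/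
theorem IsSyn.pres_of_bound {f : ι → H} {U : L2 ι →L[ℂ] H} (hU : IsSyn f U)
    {W : L2 ι →ₗᵢ[ℂ] L2 ι} {τ : ι → ι} {u : ι → ℂ} (hW : IsW W τ u) {C : ℝ}
    (hb : ∀ (s : Finset ι) (c : ι → ℂ),
      ‖∑ k ∈ s, c k • u k • f (τ k)‖ ≤ C * ‖∑ k ∈ s, c k • f k‖) :
    ∀ x ∈ U.ker, W x ∈ U.ker := by
  intro x hx
  have h0 : U x = 0 := hx
  have h1 : HasSum (fun k => x k • u k • f (τ k)) (U (W x)) := by
    have h := hasSum_map (U.comp W.toContinuousLinearMap) x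
    have e : ∀ k, (U.comp W.toContinuousLinearMap) (eb k) = u k • f (τ k) := fun k => by
      change U (W (eb k)) = _
      rw [hW.2, map_smul, hU]
    simp only [e] at h
    exact h
  have h2 := le_of_tendsto_of_tendsto' h1.norm ((hU.hasSum x).norm.const_mul C) fun s => hb s x
  rw [h0, norm_zero, mul_zero] at h2
  exact norm_le_zero_iff.1 h2

theorem IsSyn.pres_of_rep {f : ι → H} {U : L2 ι →L[ℂ] H} (hU : IsSyn f U)
    {W : L2 ι →ₗᵢ[ℂ] L2 ι} {τ : ι → ι} (hW : IsW W τ fun _ => 1) (h : BddRep f τ) :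
    ∀ x ∈ U.ker, W x ∈ U.ker := by
  obtain ⟨V, hV⟩ := h
  refine hU.pres_of_bound hW (C := ‖V‖) fun s c => ?_
  have h1 := V.le_opNorm (∑ k ∈ s, c k • ⟨f k, Submodule.subset_span ⟨k, rfl⟩⟩)
  rw [_root_.map_sum] at h1
  simp only [map_smul, hV] at h1
  simpa using h1

theorem IsSyn.pres_of_gram {f : ι → H} {U : L2 ι →L[ℂ] H} (hU : IsSyn f U)
    {W : L2 ι →ₗᵢ[ℂ] L2 ι} {τ : ι → ι} {u : ι → ℂ} (hW : IsW W τ u)
    (hg : ∀ j k, ⟪u j • f (τ j), u k • f (τ k)⟫_ℂ = ⟪f j, f k⟫_ℂ) :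
    ∀ x ∈ U.ker, W x ∈ U.ker := by
  refine hU.pres_of_bound hW (C := 1) fun s c => ?_
  have e : ⟪∑ k ∈ s, c k • u k • f (τ k), ∑ k ∈ s, c k • u k • f (τ k)⟫_ℂ =
      ⟪∑ k ∈ s, c k • f k, ∑ k ∈ s, c k • f k⟫_ℂ := by
    rw [sum_inner, sum_inner]
    refine Finset.sum_congr rfl fun j _ => ?_
    rw [inner_sum, inner_sum]
    refine Finset.sum_congr rfl fun k _ => ?_
    rw [inner_smul_left, inner_smul_right, hg, inner_smul_left, inner_smul_right]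
  rw [one_mul, norm_eq_sqrt_re_inner (𝕜 := ℂ), e, ← norm_eq_sqrt_re_inner (𝕜 := ℂ)]

theorem IsSyn.rep_of_pres {f : ι → H} {U : L2 ι →L[ℂ] H} (hU : IsSyn f U) {A : ℝ} (hA : 0 < A)
    (hl : ∀ x, A * ‖x - U.ker.starProjection x‖ ^ 2 ≤ ‖U x‖ ^ 2)
    {W : L2 ι →ₗᵢ[ℂ] L2 ι} {τ : ι → ι} (hW : IsW W τ fun _ => 1)
    (hN : ∀ x ∈ U.ker, W x ∈ U.ker) : BddRep f τ := by
  have hb : ∀ x, ‖U (W x)‖ ≤ ‖U‖ / √A * ‖U x‖ := fun x => by
    have h1 : U (W (U.ker.starProjection x)) = 0 := hN _ (U.ker.starProjection_apply_mem x)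
    have h2 : U (W x) = U (W (x - U.ker.starProjection x)) := by
      rw [map_sub, map_sub, h1, sub_zero]
    have h3 : √A * ‖x - U.ker.starProjection x‖ ≤ ‖U x‖ := by
      refine (sq_le_sq₀ (by positivity) (norm_nonneg _)).1 ?_
      rw [mul_pow, Real.sq_sqrt hA.le]
      exact hl x
    have h4 := U.le_opNorm (W (x - U.ker.starProjection x))
    rw [W.norm_map, ← h2] at h4
    have hs : 0 < √A := Real.sqrt_pos.2 hA
    calc ‖U (W x)‖ ≤ ‖U‖ / √A * (√A * ‖x - U.ker.starProjection x‖) := by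
          rw [← mul_assoc, div_mul_cancel₀ _ hs.ne']
          exact h4
      _ ≤ _ := mul_le_mul_of_nonneg_left h3 (by positivity)
  obtain ⟨R, hR⟩ := (U : L2 ι →ₗ[ℂ] H).rangeRestrict.exists_rightInverse_of_surjective
    (LinearMap.range_rangeRestrict _)
  have hle : Submodule.span ℂ (Set.range f) ≤ (U : L2 ι →ₗ[ℂ] H).range :=
    Submodule.span_le.2 (by
      rintro _ ⟨k, rfl⟩
      exact ⟨eb k, hU k⟩)
  have hRU : ∀ y, U (R y) = y.1 := fun y => congrArg Subtype.val (LinearMap.congr_fun hR y)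
  let V0 : Submodule.span ℂ (Set.range f) →ₗ[ℂ] H :=
    (U : L2 ι →ₗ[ℂ] H) ∘ₗ W.toLinearMap ∘ₗ R ∘ₗ Submodule.inclusion hle
  have hV0 : ∀ y, ‖V0 y‖ ≤ ‖U‖ / √A * ‖y‖ := fun y => by
    have := hb (R (Submodule.inclusion hle y))
    rw [hRU] at this
    exact this
  refine ⟨V0.mkContinuous _ hV0, fun k => ?_⟩
  set y := R (Submodule.inclusion hle ⟨f k, Submodule.subset_span ⟨k, rfl⟩⟩) with hy
  have h1 : y - eb k ∈ U.ker := by
    change U (y - eb k) = 0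
    rw [map_sub, hy, hRU, hU]
    exact sub_self _
  have h2 : U (W (y - eb k)) = 0 := hN _ h1
  rw [map_sub, map_sub, hW.2, one_smul, hU, sub_eq_zero] at h2
  exact h2

end Pool.Agent.P.MP_909498_an
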