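import Pool.Agent.P.MP_909498_an.Syn

/-!
Symmetries of the Gram matrix and shift invariant subspaces of `ℓ²(ℤ)`.
-/

open scoped InnerProductSpace ComplexConjugate
open Filter Topology

namespace Pool.Agent.P.MP_909498_an

variable {H : Type} [NormedAddCommGroup H] [InnerProductSpace ℂ H]

theorem IsSyn.gram_qq {ι : Type} [DecidableEq ι] {f : ι → H} {U : L2 ι →L[ℂ] H} (hU : IsSyn f U)
    (β : ι ≃ ι) (hg : ∀ j k, ⟪f (β j), f (β k)⟫_ℂ = ⟪f j, f k⟫_ℂ) :
    (∀ k, dd U.ker (β k) = dd U.ker k) ∧ ∀ j k, qq U.ker (β j) (β k) = qq U.ker j k := by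
  obtain ⟨W, hW⟩ := exists_isW β.injective (u := fun _ => 1) fun _ => norm_one
  obtain ⟨W', hW'⟩ := exists_isW β.symm.injective (u := fun _ => 1) fun _ => norm_one
  have h1 := hU.pres_of_gram hW fun j k => by simpa using hg j k
  have h2 := hU.pres_of_gram hW' fun j k => by simpa using (hg (β.symm j) (β.symm k)).symm
  have hd : ∀ k, dd U.ker (β k) = dd U.ker k := fun k =>
    le_antisymm (hW.dd_le h1 k) (by simpa using hW'.dd_le h2 (β k))
  exact ⟨hd, fun j k => by simpa using hW.qq_rel h1 hd j k⟩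

theorem exists_shifts : ∃ S : ℤ → L2 ℤ →ₗᵢ[ℂ] L2 ℤ, (∀ t, IsW (S t) (· + t) fun _ => 1) ∧
    (∀ t x i, S t x i = x (i - t)) ∧ ∀ a b x, S a (S b x) = S (a + b) x := by
  choose S hS using fun t : ℤ =>
    exists_isW (add_left_injective t) (u := fun _ => 1) fun _ => norm_one
  have h1 : ∀ t x i, S t x i = x (i - t) := fun t x i => by
    simpa using (hS t).apply x (i - t)
  refine ⟨S, hS, h1, fun a b x => lp.ext (funext fun i => ?_)⟩
  rw [h1, h1, h1, sub_sub]

/-- A subspace invariant under the right shift is invariant under all shifts, as soon as the basis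
vectors stay away from it. -/
theorem wold {N : Submodule ℂ (L2 ℤ)} [N.HasOrthogonalProjection] {S : ℤ → L2 ℤ →ₗᵢ[ℂ] L2 ℤ}
    (h1 : ∀ t x i, S t x i = x (i - t)) (h2 : ∀ a b x, S a (S b x) = S (a + b) x)
    (hN : ∀ x ∈ N, S 1 x ∈ N) {c : ℝ} (hc : 0 < c) (hd : ∀ k, c ≤ dd N k) :
    ∀ x ∈ N, S (-1) x ∈ N := by
  intro x hx
  by_contra hy
  have h0 : ∀ x, S 0 x = x := fun x => lp.ext (funext fun i => by rw [h1, sub_zero])
  set y := S (-1) x with hy'
  set v0 := y - N.starProjection y with hv0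
  have hv0n : v0 ≠ 0 := fun e =>
    hy (Submodule.starProjection_eq_self_iff.1 (sub_eq_zero.1 e).symm)
  set v := ((‖v0‖⁻¹ : ℝ) : ℂ) • v0 with hv
  have hv1 : ‖v‖ = 1 := by
    rw [hv, norm_smul, Complex.norm_real, norm_inv, norm_norm,
      inv_mul_cancel₀ (norm_ne_zero_iff.2 hv0n)]
  have hvo : v ∈ Nᗮ := Nᗮ.smul_mem _ (N.sub_starProjection_mem_orthogonal y)
  have hv2 : S 1 v ∈ N := by
    rw [hv, map_smul, hv0, map_sub, hy', h2, add_neg_cancel, h0]
    exact N.smul_mem _ (N.sub_mem hx (hN _ (N.starProjection_apply_mem _)))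
  have hv3 : ∀ t, 1 ≤ t → S t v ∈ N := fun t ht => by
    induction t, ht using Int.leInduction with
    | base => exact hv2
    | succ n _ ih =>
      have := hN _ ih
      rwa [h2, add_comm] at this
  have hv4 : ∀ a b, a < b → ⟪S b v, S a v⟫_ℂ = 0 := fun a b hab => by
    have e : S b v = S a (S (b - a) v) := by rw [h2, add_sub_cancel]
    rw [e, (S a).inner_map_map]
    exact (Submodule.mem_orthogonal _ _).1 hvo _ (hv3 _ (by omega))
  have hs := hasSum_sq v
  rw [hv1, one_pow] at hs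
  obtain ⟨s, hs'⟩ := (hs.eventually (lt_mem_nhds (show 1 - c ^ 2 < 1 by nlinarith))).exists
  obtain ⟨b, hb⟩ := s.bddAbove
  have ho : Orthonormal ℂ fun i : ℤ => S (b + 1 - i) v := by
    refine ⟨fun i => by rw [(S _).norm_map, hv1], fun i j hij => ?_⟩
    rcases lt_or_gt_of_ne hij with h | h
    · exact hv4 _ _ (by omega)
    · exact inner_eq_zero_symm.1 (hv4 _ _ (by omega))
  have hB := ho.sum_inner_products_le (s := s) (N.starProjection (eb (b + 1)))
  have e : ∀ i ∈ s, ‖⟪S (b + 1 - i) v, N.starProjection (eb (b + 1))⟫_ℂ‖ ^ 2 = ‖v i‖ ^ 2 := by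
    intro i hi
    have hi' : i ≤ b := hb hi
    rw [← N.inner_starProjection_left_eq_right,
      Submodule.starProjection_eq_self_iff.2 (hv3 _ (by omega)), norm_inner_symm, inner_eb, h1,
      sub_sub_cancel]
  rw [Finset.sum_congr rfl e] at hB
  have hp := pyth N (eb (b + 1)) N.zero_mem
  rw [sub_zero, sub_zero, orthonormal_eb.1, one_pow] at hp
  have h3 : c ^ 2 ≤ dd N (b + 1) ^ 2 := pow_le_pow_left₀ hc.le (hd _) 2
  unfold dd at h3
  linarith

end Pool.Agent.P.MP_909498_an
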